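import Mathlib

set_option autoImplicit false

namespace Pool.Agent.H.MP_7a18c0_al

/-- the determinant form -/
def om (p q : ℤ × ℤ) : ℤ := p.1 * q.2 - p.2 * q.1

/-- the permanent of the `4 × 4` block with rows `2..5` and columns `6..9` -/
def perm4 (W : ℕ → ℕ → ℤ) : ℤ :=
  W 2 6*W 3 7*W 4 8*W 5 9 +
  W 2 6*W 3 7*W 4 9*W 5 8 +
  W 2 6*W 3 8*W 4 7*W 5 9 +
  W 2 6*W 3 8*W 4 9*W 5 7 +
  W 2 6*W 3 9*W 4 7*W 5 8 +
  W 2 6*W 3 9*W 4 8*W 5 7 +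
  W 2 7*W 3 6*W 4 8*W 5 9 +
  W 2 7*W 3 6*W 4 9*W 5 8 +
  W 2 7*W 3 8*W 4 6*W 5 9 +
  W 2 7*W 3 8*W 4 9*W 5 6 +
  W 2 7*W 3 9*W 4 6*W 5 8 +
  W 2 7*W 3 9*W 4 8*W 5 6 +
  W 2 8*W 3 6*W 4 7*W 5 9 +
  W 2 8*W 3 6*W 4 9*W 5 7 +
  W 2 8*W 3 7*W 4 6*W 5 9 +
  W 2 8*W 3 7*W 4 9*W 5 6 +
  W 2 8*W 3 9*W 4 6*W 5 7 +
  W 2 8*W 3 9*W 4 7*W 5 6 +
  W 2 9*W 3 6*W 4 7*W 5 8 +
  W 2 9*W 3 6*W 4 8*W 5 7 +
  W 2 9*W 3 7*W 4 6*W 5 8 +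
  W 2 9*W 3 7*W 4 8*W 5 6 +
  W 2 9*W 3 8*W 4 6*W 5 7 +
  W 2 9*W 3 8*W 4 7*W 5 6

/-- `W 0 1` times the permanent -/
def psiW (W : ℕ → ℕ → ℤ) : ℤ := W 0 1 * perm4 W

theorem psi_dvd_0 (D : ℤ) (W K : ℕ → ℕ → ℤ)
    (h : ∀ i j, i < 10 → j < 10 → i ≠ 0 → j ≠ 0 → W i j = D * K i j) :
    D ^ 4 ∣ psiW W := by
  refine ⟨W 0 1 * (K 2 6*K 3 7*K 4 8*K 5 9 + K 2 6*K 3 7*K 4 9*K 5 8 + K 2 6*K 3 8*K 4 7*K 5 9 + K 2 6*K 3 8*K 4 9*K 5 7 + K 2 6*K 3 9*K 4 7*K 5 8 + K 2 6*K 3 9*K 4 8*K 5 7 + K 2 7*K 3 6*K 4 8*K 5 9 + K 2 7*K 3 6*K 4 9*K 5 8 + K 2 7*K 3 8*K 4 6*K 5 9 + K 2 7*K 3 8*K 4 9*K 5 6 + K 2 7*K 3 9*K 4 6*K 5 8 + K 2 7*K 3 9*K 4 8*K 5 6 + K 2 8*K 3 6*K 4 7*K 5 9 + K 2 8*K 3 6*K 4 9*K 5 7 + K 2 8*K 3 7*K 4 6*K 5 9 + K 2 8*K 3 7*K 4 9*K 5 6 + K 2 8*K 3 9*K 4 6*K 5 7 + K 2 8*K 3 9*K 4 7*K 5 6 + K 2 9*K 3 6*K 4 7*K 5 8 + K 2 9*K 3 6*K 4 8*K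 5 7 + K 2 9*K 3 7*K 4 6*K 5 8 + K 2 9*K 3 7*K 4 8*K 5 6 + K 2 9*K 3 8*K 4 6*K 5 7 + K 2 9*K 3 8*K 4 7*K 5 6), ?_⟩
  unfold psiW perm4
  rw [h 2 6 (by decide) (by decide) (by decide) (by decide), h 2 7 (by decide) (by decide) (by decide) (by decide), h 2 8 (by decide) (by decide) (by decide) (by decide), h 2 9 (by decide) (by decide) (by decide) (by decide), h 3 6 (by decide) (by decide) (by decide) (by decide), h 3 7 (by decide) (by decide) (by decide) (by decide), h 3 8 (by decide) (by decide) (by decide) (by decide), h 3 9 (by decide) (by decide) (by decide) (by decide), h 4 6 (by decide) (by decide) (by decide) (by decide), h 4 7 (by decide) (by decide) (by decide) (by decide), h 4 8 (by decide) (by decide) (by decide) (by decide), h 4 9 (by decide) (by decide) (by decide) (by decide), h 5 6 (by decide) (by decide) (by decide)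 (by decide), h 5 7 (by decide) (by decide) (by decide) (by decide), h 5 8 (by decide) (by decide) (by decide) (by decide), h 5 9 (by decide) (by decide) (by decide) (by decide)]
  ring

theorem psi_dvd_1 (D : ℤ) (W K : ℕ → ℕ → ℤ)
    (h : ∀ i j, i < 10 → j < 10 → i ≠ 1 → j ≠ 1 → W i j = D * K i j) :
    D ^ 4 ∣ psiW W := by
  refine ⟨W 0 1 * (K 2 6*K 3 7*K 4 8*K 5 9 + K 2 6*K 3 7*K 4 9*K 5 8 + K 2 6*K 3 8*K 4 7*K 5 9 + K 2 6*K 3 8*K 4 9*K 5 7 + K 2 6*K 3 9*K 4 7*K 5 8 + K 2 6*K 3 9*K 4 8*K 5 7 + K 2 7*K 3 6*K 4 8*K 5 9 + K 2 7*K 3 6*K 4 9*K 5 8 + K 2 7*K 3 8*K 4 6*K 5 9 + K 2 7*K 3 8*K 4 9*K 5 6 + K 2 7*K 3 9*K 4 6*K 5 8 + K 2 7*K 3 9*K 4 8*K 5 6 + K 2 8*K 3 6*K 4 7*K 5 9 + K 2 8*K 3 6*K 4 9*K 5 7 + K 2 8*K 3 7*K 4 6*K 5 9 + K 2 8*K 3 7*K 4 9*K 5 6 + K 2 8*K 3 9*K 4 6*K 5 7 + K 2 8*K 3 9*K 4 7*K 5 6 + K 2 9*K 3 6*K 4 7*K 5 8 + K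 2 9*K 3 6*K 4 8*K 5 7 + K 2 9*K 3 7*K 4 6*K 5 8 + K 2 9*K 3 7*K 4 8*K 5 6 + K 2 9*K 3 8*K 4 6*K 5 7 + K 2 9*K 3 8*K 4 7*K 5 6), ?_⟩
  unfold psiW perm4
  rw [h 2 6 (by decide) (by decide) (by decide) (by decide), h 2 7 (by decide) (by decide) (by decide) (by decide), h 2 8 (by decide) (by decide) (by decide) (by decide), h 2 9 (by decide) (by decide) (by decide) (by decide), h 3 6 (by decide) (by decide) (by decide) (by decide), h 3 7 (by decide) (by decide) (by decide) (by decide), h 3 8 (by decide) (by decide) (by decide) (by decide), h 3 9 (by decide) (by decide) (by decide) (by decide), h 4 6 (by decide) (by decide) (by decide) (by decide), h 4 7 (by decide) (by decide) (by decide) (by decide), h 4 8 (by decide) (by decide) (by decide) (by decide), h 4 9 (by decide) (by decide) (by decide) (by decide), h 5 6 (by decide) (by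 decide) (by decide) (by decide), h 5 7 (by decide) (by decide) (by decide) (by decide), h 5 8 (by decide) (by decide) (by decide) (by decide), h 5 9 (by decide) (by decide) (by decide) (by decide)]
  ring

theorem psi_dvd_2 (D : ℤ) (W K : ℕ → ℕ → ℤ)
    (h : ∀ i j, i < 10 → j < 10 → i ≠ 2 → j ≠ 2 → W i j = D * K i j) :
    D ^ 4 ∣ psiW W := by
  refine ⟨K 0 1 * (W 2 6*K 3 7*K 4 8*K 5 9 + W 2 6*K 3 7*K 4 9*K 5 8 + W 2 6*K 3 8*K 4 7*K 5 9 + W 2 6*K 3 8*K 4 9*K 5 7 + W 2 6*K 3 9*K 4 7*K 5 8 + W 2 6*K 3 9*K 4 8*K 5 7 + W 2 7*K 3 6*K 4 8*K 5 9 + W 2 7*K 3 6*K 4 9*K 5 8 + W 2 7*K 3 8*K 4 6*K 5 9 + W 2 7*K 3 8*K 4 9*K 5 6 + W 2 7*K 3 9*K 4 6*K 5 8 + W 2 7*K 3 9*K 4 8*K 5 6 + W 2 8*K 3 6*K 4 7*K 5 9 + W 2 8*K 3 6*K 4 9*K 5 7 + W 2 8*K 3 7*K 4 6*K 5 9 + W 2 8*K 3 7*K 4 9*K 5 6 + W 2 8*K 3 9*K 4 6*K 5 7 + W 2 8*K 3 9*K 4 7*K 5 6 + W 2 9*K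 3 6*K 4 7*K 5 8 + W 2 9*K 3 6*K 4 8*K 5 7 + W 2 9*K 3 7*K 4 6*K 5 8 + W 2 9*K 3 7*K 4 8*K 5 6 + W 2 9*K 3 8*K 4 6*K 5 7 + W 2 9*K 3 8*K 4 7*K 5 6), ?_⟩
  unfold psiW perm4
  rw [h 0 1 (by decide) (by decide) (by decide) (by decide), h 3 6 (by decide) (by decide) (by decide) (by decide), h 3 7 (by decide) (by decide) (by decide) (by decide), h 3 8 (by decide) (by decide) (by decide) (by decide), h 3 9 (by decide) (by decide) (by decide) (by decide), h 4 6 (by decide) (by decide) (by decide) (by decide), h 4 7 (by decide) (by decide) (by decide) (by decide), h 4 8 (by decide) (by decide) (by decide) (by decide), h 4 9 (by decide) (by decide) (by decide) (by decide), h 5 6 (by decide) (by decide) (by decide) (by decide), h 5 7 (by decide) (by decide) (by decide) (by decide), h 5 8 (by decide) (by decide) (by decide) (by decide), h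 5 9 (by decide) (by decide) (by decide) (by decide)]
  ring

theorem psi_dvd_3 (D : ℤ) (W K : ℕ → ℕ → ℤ)
    (h : ∀ i j, i < 10 → j < 10 → i ≠ 3 → j ≠ 3 → W i j = D * K i j) :
    D ^ 4 ∣ psiW W := by
  refine ⟨K 0 1 * (K 2 6*W 3 7*K 4 8*K 5 9 + K 2 6*W 3 7*K 4 9*K 5 8 + K 2 6*W 3 8*K 4 7*K 5 9 + K 2 6*W 3 8*K 4 9*K 5 7 + K 2 6*W 3 9*K 4 7*K 5 8 + K 2 6*W 3 9*K 4 8*K 5 7 + K 2 7*W 3 6*K 4 8*K 5 9 + K 2 7*W 3 6*K 4 9*K 5 8 + K 2 7*W 3 8*K 4 6*K 5 9 + K 2 7*W 3 8*K 4 9*K 5 6 + K 2 7*W 3 9*K 4 6*K 5 8 + K 2 7*W 3 9*K 4 8*K 5 6 + K 2 8*W 3 6*K 4 7*K 5 9 + K 2 8*W 3 6*K 4 9*K 5 7 + K 2 8*W 3 7*K 4 6*K 5 9 + K 2 8*W 3 7*K 4 9*K 5 6 + K 2 8*W 3 9*K 4 6*K 5 7 + K 2 8*W 3 9*K 4 7*K 5 6 + K 2 9*W 3 6*K 4 7*K 5 8 + K 2 9*W 3 6*K 4 8*K 5 7 + K 2 9*W 3 7*K 4 6*K 5 8 + K 2 9*W 3 7*K 4 8*K 5 6 + K 2 9*W 3 8*K 4 6*K 5 7 + K 2 9*W 3 8*K 4 7*K 5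 6), ?_⟩
  unfold psiW perm4
  rw [h 0 1 (by decide) (by decide) (by decide) (by decide), h 2 6 (by decide) (by decide) (by decide) (by decide), h 2 7 (by decide) (by decide) (by decide) (by decide), h 2 8 (by decide) (by decide) (by decide) (by decide), h 2 9 (by decide) (by decide) (by decide) (by decide), h 4 6 (by decide) (by decide) (by decide) (by decide), h 4 7 (by decide) (by decide) (by decide) (by decide), h 4 8 (by decide) (by decide) (by decide) (by decide), h 4 9 (by decide) (by decide) (by decide) (by decide), h 5 6 (by decide) (by decide) (by decide) (by decide), h 5 7 (by decide) (by decide) (by decide) (by decide), h 5 8 (by decide) (by decide) (by decide) (by decide), h 5 9 (by decide) (by decide) (by decide) (by decide)]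
  ring

theorem psi_dvd_4 (D : ℤ) (W K : ℕ → ℕ → ℤ)
    (h : ∀ i j, i < 10 → j < 10 → i ≠ 4 → j ≠ 4 → W i j = D * K i j) :
    D ^ 4 ∣ psiW W := by
  refine ⟨K 0 1 * (K 2 6*K 3 7*W 4 8*K 5 9 + K 2 6*K 3 7*W 4 9*K 5 8 + K 2 6*K 3 8*W 4 7*K 5 9 + K 2 6*K 3 8*W 4 9*K 5 7 + K 2 6*K 3 9*W 4 7*K 5 8 + K 2 6*K 3 9*W 4 8*K 5 7 + K 2 7*K 3 6*W 4 8*K 5 9 + K 2 7*K 3 6*W 4 9*K 5 8 + K 2 7*K 3 8*W 4 6*K 5 9 + K 2 7*K 3 8*W 4 9*K 5 6 + K 2 7*K 3 9*W 4 6*K 5 8 + K 2 7*K 3 9*W 4 8*K 5 6 + K 2 8*K 3 6*W 4 7*K 5 9 + K 2 8*K 3 6*W 4 9*K 5 7 + K 2 8*K 3 7*W 4 6*K 5 9 + K 2 8*K 3 7*W 4 9*K 5 6 + K 2 8*K 3 9*W 4 6*K 5 7 + K 2 8*K 3 9*W 4 7*K 5 6 + K 2 9*K 3 6*W 4 7*K 5 8 + K 2 9*K 3 6*W 4 8*K 5 7 + K 2 9*K 3 7*W 4 6*K 5 8 + K 2 9*K 3 7*W 4 8*K 5 6 + K 2 9*K 3 8*W 4 6*K 5 7 + K 2 9*K 3 8*W 4 7*K 5 6), ?_⟩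
  unfold psiW perm4
  rw [h 0 1 (by decide) (by decide) (by decide) (by decide), h 2 6 (by decide) (by decide) (by decide) (by decide), h 2 7 (by decide) (by decide) (by decide) (by decide), h 2 8 (by decide) (by decide) (by decide) (by decide), h 2 9 (by decide) (by decide) (by decide) (by decide), h 3 6 (by decide) (by decide) (by decide) (by decide), h 3 7 (by decide) (by decide) (by decide) (by decide), h 3 8 (by decide) (by decide) (by decide) (by decide), h 3 9 (by decide) (by decide) (by decide) (by decide), h 5 6 (by decide) (by decide) (by decide) (by decide), h 5 7 (by decide) (by decide) (by decide) (by decide), h 5 8 (by decide) (by decide) (by decide) (by decide), h 5 9 (by decide) (by decide) (by decide) (by decide)]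
  ring

theorem psi_dvd_5 (D : ℤ) (W K : ℕ → ℕ → ℤ)
    (h : ∀ i j, i < 10 → j < 10 → i ≠ 5 → j ≠ 5 → W i j = D * K i j) :
    D ^ 4 ∣ psiW W := by
  refine ⟨K 0 1 * (K 2 6*K 3 7*K 4 8*W 5 9 + K 2 6*K 3 7*K 4 9*W 5 8 + K 2 6*K 3 8*K 4 7*W 5 9 + K 2 6*K 3 8*K 4 9*W 5 7 + K 2 6*K 3 9*K 4 7*W 5 8 + K 2 6*K 3 9*K 4 8*W 5 7 + K 2 7*K 3 6*K 4 8*W 5 9 + K 2 7*K 3 6*K 4 9*W 5 8 + K 2 7*K 3 8*K 4 6*W 5 9 + K 2 7*K 3 8*K 4 9*W 5 6 + K 2 7*K 3 9*K 4 6*W 5 8 + K 2 7*K 3 9*K 4 8*W 5 6 + K 2 8*K 3 6*K 4 7*W 5 9 + K 2 8*K 3 6*K 4 9*W 5 7 + K 2 8*K 3 7*K 4 6*W 5 9 + K 2 8*K 3 7*K 4 9*W 5 6 + K 2 8*K 3 9*K 4 6*W 5 7 + K 2 8*K 3 9*K 4 7*W 5 6 + K 2 9*K 3 6*K 4 7*W 5 8 + K 2 9*K 3 6*K 4 8*W 5 7 + K 2 9*K 3 7*K 4 6*W 5 8 + K 2 9*K 3 7*K 4 8*W 5 6 + K 2 9*K 3 8*K 4 6*W 5 7 + K 2 9*K 3 8*K 4 7*W 5 6), ?_⟩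
  unfold psiW perm4
  rw [h 0 1 (by decide) (by decide) (by decide) (by decide), h 2 6 (by decide) (by decide) (by decide) (by decide), h 2 7 (by decide) (by decide) (by decide) (by decide), h 2 8 (by decide) (by decide) (by decide) (by decide), h 2 9 (by decide) (by decide) (by decide) (by decide), h 3 6 (by decide) (by decide) (by decide) (by decide), h 3 7 (by decide) (by decide) (by decide) (by decide), h 3 8 (by decide) (by decide) (by decide) (by decide), h 3 9 (by decide) (by decide) (by decide) (by decide), h 4 6 (by decide) (by decide) (by decide) (by decide), h 4 7 (by decide) (by decide) (by decide) (by decide), h 4 8 (by decide) (by decide) (by decide) (by decide), h 4 9 (by decide) (by decide) (by decide) (by decide)]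
  ring

theorem psi_dvd_6 (D : ℤ) (W K : ℕ → ℕ → ℤ)
    (h : ∀ i j, i < 10 → j < 10 → i ≠ 6 → j ≠ 6 → W i j = D * K i j) :
    D ^ 4 ∣ psiW W := by
  refine ⟨K 0 1 * (W 2 6*K 3 7*K 4 8*K 5 9 + W 2 6*K 3 7*K 4 9*K 5 8 + W 2 6*K 3 8*K 4 7*K 5 9 + W 2 6*K 3 8*K 4 9*K 5 7 + W 2 6*K 3 9*K 4 7*K 5 8 + W 2 6*K 3 9*K 4 8*K 5 7 + K 2 7*W 3 6*K 4 8*K 5 9 + K 2 7*W 3 6*K 4 9*K 5 8 + K 2 7*K 3 8*W 4 6*K 5 9 + K 2 7*K 3 8*K 4 9*W 5 6 + K 2 7*K 3 9*W 4 6*K 5 8 + K 2 7*K 3 9*K 4 8*W 5 6 + K 2 8*W 3 6*K 4 7*K 5 9 + K 2 8*W 3 6*K 4 9*K 5 7 + K 2 8*K 3 7*W 4 6*K 5 9 + K 2 8*K 3 7*K 4 9*W 5 6 + K 2 8*K 3 9*W 4 6*K 5 7 + K 2 8*K 3 9*K 4 7*W 5 6 + K 2 9*W 3 6*K 4 7*K 5 8 + K 2 9*W 3 6*K 4 8*K 5 7 + K 2 9*K 3 7*W 4 6*K 5 8 + K 2 9*K 3 7*K 4 8*W 5 6 + K 2 9*K 3 8*W 4 6*K 5 7 + K 2 9*K 3 8*K 4 7*W 5 6), ?_⟩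
  unfold psiW perm4
  rw [h 0 1 (by decide) (by decide) (by decide) (by decide), h 2 7 (by decide) (by decide) (by decide) (by decide), h 2 8 (by decide) (by decide) (by decide) (by decide), h 2 9 (by decide) (by decide) (by decide) (by decide), h 3 7 (by decide) (by decide) (by decide) (by decide), h 3 8 (by decide) (by decide) (by decide) (by decide), h 3 9 (by decide) (by decide) (by decide) (by decide), h 4 7 (by decide) (by decide) (by decide) (by decide), h 4 8 (by decide) (by decide) (by decide) (by decide), h 4 9 (by decide) (by decide) (by decide) (by decide), h 5 7 (by decide) (by decide) (by decide) (by decide), h 5 8 (by decide) (by decide) (by decide) (by decide), h 5 9 (by decide) (by decide) (by decide) (by decide)]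
  ring

theorem psi_dvd_7 (D : ℤ) (W K : ℕ → ℕ → ℤ)
    (h : ∀ i j, i < 10 → j < 10 → i ≠ 7 → j ≠ 7 → W i j = D * K i j) :
    D ^ 4 ∣ psiW W := by
  refine ⟨K 0 1 * (K 2 6*W 3 7*K 4 8*K 5 9 + K 2 6*W 3 7*K 4 9*K 5 8 + K 2 6*K 3 8*W 4 7*K 5 9 + K 2 6*K 3 8*K 4 9*W 5 7 + K 2 6*K 3 9*W 4 7*K 5 8 + K 2 6*K 3 9*K 4 8*W 5 7 + W 2 7*K 3 6*K 4 8*K 5 9 + W 2 7*K 3 6*K 4 9*K 5 8 + W 2 7*K 3 8*K 4 6*K 5 9 + W 2 7*K 3 8*K 4 9*K 5 6 + W 2 7*K 3 9*K 4 6*K 5 8 + W 2 7*K 3 9*K 4 8*K 5 6 + K 2 8*K 3 6*W 4 7*K 5 9 + K 2 8*K 3 6*K 4 9*W 5 7 + K 2 8*W 3 7*K 4 6*K 5 9 + K 2 8*W 3 7*K 4 9*K 5 6 + K 2 8*K 3 9*K 4 6*W 5 7 + K 2 8*K 3 9*W 4 7*K 5 6 + K 2 9*K 3 6*W 4 7*K 5 8 + K 2 9*K 3 6*K 4 8*W 5 7 + K 2 9*W 3 7*K 4 6*K 5 8 + K 2 9*W 3 7*K 4 8*K 5 6 + K 2 9*K 3 8*K 4 6*W 5 7 + K 2 9*K 3 8*W 4 7*K 5 6), ?_⟩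
  unfold psiW perm4
  rw [h 0 1 (by decide) (by decide) (by decide) (by decide), h 2 6 (by decide) (by decide) (by decide) (by decide), h 2 8 (by decide) (by decide) (by decide) (by decide), h 2 9 (by decide) (by decide) (by decide) (by decide), h 3 6 (by decide) (by decide) (by decide) (by decide), h 3 8 (by decide) (by decide) (by decide) (by decide), h 3 9 (by decide) (by decide) (by decide) (by decide), h 4 6 (by decide) (by decide) (by decide) (by decide), h 4 8 (by decide) (by decide) (by decide) (by decide), h 4 9 (by decide) (by decide) (by decide) (by decide), h 5 6 (by decide) (by decide) (by decide) (by decide), h 5 8 (by decide) (by decide) (by decide) (by decide), h 5 9 (by decide) (by decide) (by decide) (by decide)]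
  ring

theorem psi_dvd_8 (D : ℤ) (W K : ℕ → ℕ → ℤ)
    (h : ∀ i j, i < 10 → j < 10 → i ≠ 8 → j ≠ 8 → W i j = D * K i j) :
    D ^ 4 ∣ psiW W := by
  refine ⟨K 0 1 * (K 2 6*K 3 7*W 4 8*K 5 9 + K 2 6*K 3 7*K 4 9*W 5 8 + K 2 6*W 3 8*K 4 7*K 5 9 + K 2 6*W 3 8*K 4 9*K 5 7 + K 2 6*K 3 9*K 4 7*W 5 8 + K 2 6*K 3 9*W 4 8*K 5 7 + K 2 7*K 3 6*W 4 8*K 5 9 + K 2 7*K 3 6*K 4 9*W 5 8 + K 2 7*W 3 8*K 4 6*K 5 9 + K 2 7*W 3 8*K 4 9*K 5 6 + K 2 7*K 3 9*K 4 6*W 5 8 + K 2 7*K 3 9*W 4 8*K 5 6 + W 2 8*K 3 6*K 4 7*K 5 9 + W 2 8*K 3 6*K 4 9*K 5 7 + W 2 8*K 3 7*K 4 6*K 5 9 + W 2 8*K 3 7*K 4 9*K 5 6 + W 2 8*K 3 9*K 4 6*K 5 7 + W 2 8*K 3 9*K 4 7*K 5 6 + K 2 9*K 3 6*K 4 7*W 5 8 + K 2 9*K 3 6*W 4 8*K 5 7 + K 2 9*K 3 7*K 4 6*W 5 8 + K 2 9*K 3 7*W 4 8*K 5 6 + K 2 9*W 3 8*K 4 6*K 5 7 + K 2 9*W 3 8*K 4 7*K 5 6), ?_⟩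
  unfold psiW perm4
  rw [h 0 1 (by decide) (by decide) (by decide) (by decide), h 2 6 (by decide) (by decide) (by decide) (by decide), h 2 7 (by decide) (by decide) (by decide) (by decide), h 2 9 (by decide) (by decide) (by decide) (by decide), h 3 6 (by decide) (by decide) (by decide) (by decide), h 3 7 (by decide) (by decide) (by decide) (by decide), h 3 9 (by decide) (by decide) (by decide) (by decide), h 4 6 (by decide) (by decide) (by decide) (by decide), h 4 7 (by decide) (by decide) (by decide) (by decide), h 4 9 (by decide) (by decide) (by decide) (by decide), h 5 6 (by decide) (by decide) (by decide) (by decide), h 5 7 (by decide) (by decide) (by decide) (by decide), h 5 9 (by decide) (by decide) (by decide) (by decide)]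
  ring

theorem psi_dvd_9 (D : ℤ) (W K : ℕ → ℕ → ℤ)
    (h : ∀ i j, i < 10 → j < 10 → i ≠ 9 → j ≠ 9 → W i j = D * K i j) :
    D ^ 4 ∣ psiW W := by
  refine ⟨K 0 1 * (K 2 6*K 3 7*K 4 8*W 5 9 + K 2 6*K 3 7*W 4 9*K 5 8 + K 2 6*K 3 8*K 4 7*W 5 9 + K 2 6*K 3 8*W 4 9*K 5 7 + K 2 6*W 3 9*K 4 7*K 5 8 + K 2 6*W 3 9*K 4 8*K 5 7 + K 2 7*K 3 6*K 4 8*W 5 9 + K 2 7*K 3 6*W 4 9*K 5 8 + K 2 7*K 3 8*K 4 6*W 5 9 + K 2 7*K 3 8*W 4 9*K 5 6 + K 2 7*W 3 9*K 4 6*K 5 8 + K 2 7*W 3 9*K 4 8*K 5 6 + K 2 8*K 3 6*K 4 7*W 5 9 + K 2 8*K 3 6*W 4 9*K 5 7 + K 2 8*K 3 7*K 4 6*W 5 9 + K 2 8*K 3 7*W 4 9*K 5 6 + K 2 8*W 3 9*K 4 6*K 5 7 + K 2 8*W 3 9*K 4 7*K 5 6 + W 2 9*K 3 6*K 4 7*K 5 8 + W 2 9*K 3 6*K 4 8*K 5 7 + W 2 9*K 3 7*K 4 6*K 5 8 + W 2 9*K 3 7*K 4 8*K 5 6 + W 2 9*K 3 8*K 4 6*K 5 7 + W 2 9*K 3 8*K 4 7*K 5 6), ?_⟩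
  unfold psiW perm4
  rw [h 0 1 (by decide) (by decide) (by decide) (by decide), h 2 6 (by decide) (by decide) (by decide) (by decide), h 2 7 (by decide) (by decide) (by decide) (by decide), h 2 8 (by decide) (by decide) (by decide) (by decide), h 3 6 (by decide) (by decide) (by decide) (by decide), h 3 7 (by decide) (by decide) (by decide) (by decide), h 3 8 (by decide) (by decide) (by decide) (by decide), h 4 6 (by decide) (by decide) (by decide) (by decide), h 4 7 (by decide) (by decide) (by decide) (by decide), h 4 8 (by decide) (by decide) (by decide) (by decide), h 5 6 (by decide) (by decide) (by decide) (by decide), h 5 7 (by decide) (by decide) (by decide) (by decide), h 5 8 (by decide) (by decide) (by decide) (by decide)]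
  ring

theorem psi_dvd (D : ℤ) (W : ℕ → ℕ → ℤ) (i₀ : ℕ) (hi : i₀ < 10)
    (h : ∀ i j, i < 10 → j < 10 → i ≠ i₀ → j ≠ i₀ → D ∣ W i j) : D ^ 4 ∣ psiW W := by
  have h' : ∀ i j, i < 10 → j < 10 → i ≠ i₀ → j ≠ i₀ → W i j = D * (W i j / D) := by
    intro i j h1 h2 h3 h4
    rw [Int.mul_ediv_cancel' (h i j h1 h2 h3 h4)]
  have hc : i₀ = 0 ∨ i₀ = 1 ∨ i₀ = 2 ∨ i₀ = 3 ∨ i₀ = 4 ∨ i₀ = 5 ∨ i₀ = 6 ∨ i₀ = 7 ∨ i₀ = 8 ∨ i₀ = 9 := by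
    omega
  rcases hc with rfl | rfl | rfl | rfl | rfl | rfl | rfl | rfl | rfl | rfl
  · exact psi_dvd_0 D W (fun i j => W i j / D) h'
  · exact psi_dvd_1 D W (fun i j => W i j / D) h'
  · exact psi_dvd_2 D W (fun i j => W i j / D) h'
  · exact psi_dvd_3 D W (fun i j => W i j / D) h'
  · exact psi_dvd_4 D W (fun i j => W i j / D) h'
  · exact psi_dvd_5 D W (fun i j => W i j / D) h'
  · exact psi_dvd_6 D W (fun i j => W i j / D) h'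
  · exact psi_dvd_7 D W (fun i j => W i j / D) h'
  · exact psi_dvd_8 D W (fun i j => W i j / D) h'
  · exact psi_dvd_9 D W (fun i j => W i j / D) h'

end Pool.Agent.H.MP_7a18c0_al
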