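import Pool.Agent.H.MP_7a18c0_al.Filt
import Pool.Agent.H.MP_7a18c0_al.Psi

set_option autoImplicit false

namespace Pool.Agent.H.MP_7a18c0_al

open scoped commutatorElement

/-- ring commutator -/
def br {R : Type*} [Ring R] (a b : R) : R := a * b - b * a

theorem br_smul_left {R : Type*} [Ring R] (c : ℤ) (a b : R) : br (c • a) b = c • br a b := by
  simp only [br, smul_mul_assoc, mul_smul_comm, smul_sub]

theorem br_smul_right {R : Type*} [Ring R] (c : ℤ) (a b : R) : br a (c • b) = c • br a b := by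
  simp only [br, smul_mul_assoc, mul_smul_comm, smul_sub]

theorem br_add_left {R : Type*} [Ring R] (a b c : R) : br (a + b) c = br a c + br b c := by
  simp only [br]; noncomm_ring

theorem br_add_right {R : Type*} [Ring R] (a b c : R) : br a (b + c) = br a b + br a c := by
  simp only [br]; noncomm_ring

theorem br_self {R : Type*} [Ring R] (a : R) : br a a = 0 := by simp [br]

theorem br_swap {R : Type*} [Ring R] (a b : R) : br a b = - br b a := by simp [br]

theorem br_comb {R : Type*} [Ring R] (X Y : R) (a b c d : ℤ) :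
    br (a • X + b • Y) (c • X + d • Y) = (a * d - b * c) • br X Y := by
  simp only [br_add_left, br_add_right, br_smul_left, br_smul_right, br_self, smul_zero, zero_add,
    add_zero]
  rw [br_swap Y X]
  simp only [smul_neg, smul_smul, sub_smul]
  rw [mul_comm c b, mul_comm d a]
  abel

/-- the Lie polynomial of degree eight -/
def v8 {R : Type*} [Ring R] (X Y : R) : R :=
  br (br X Y) (br (br (br X Y) X) (br (br X Y) Y))

theorem v8_comb {R : Type*} [Ring R] (X Y : R) (a b c d : ℤ) :
    v8 (a • X + b • Y) (c • X + d • Y) = (a * d - b * c) ^ 4 • v8 X Y := by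
  unfold v8
  rw [br_comb]
  set D : ℤ := a * d - b * c with hD
  set e := br X Y with he
  have h1 : br (D • e) (a • X + b • Y) = D • (a • br e X + b • br e Y) := by
    rw [br_smul_left, br_add_right, br_smul_right, br_smul_right]
  have h2 : br (D • e) (c • X + d • Y) = D • (c • br e X + d • br e Y) := by
    rw [br_smul_left, br_add_right, br_smul_right, br_smul_right]
  have h3 : br (D • (a • br e X + b • br e Y)) (D • (c • br e X + d • br e Y))
      = D ^ 3 • br (br e X) (br e Y) := by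
    rw [br_smul_left, br_smul_right, br_comb, ← hD, smul_smul, smul_smul]
    congr 1
    ring
  rw [h1, h2, h3, br_smul_left, br_smul_right, smul_smul]
  congr 1
  ring

/-- the group word -/
def vw {G : Type*} [Group G] (g h : G) : G := ⁅⁅g, h⁆, ⁅⁅⁅g, h⁆, g⁆, ⁅⁅g, h⁆, h⁆⁆⁆

theorem vw_lead {R : Type*} [Ring R] (Φ : Filt R) {g h : Rˣ} (hg : g ∈ Φ.V 1) (hh : h ∈ Φ.V 1)
    {l m : R} (hl : (g : R) - 1 - l ∈ Φ.F 2) (hm : (h : R) - 1 - m ∈ Φ.F 2) :
    ((vw g h : Rˣ) : R) - 1 - v8 l m ∈ Φ.F 9 ∧ vw g h ∈ Φ.V 8 := by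
  have e1 := Φ.comm_mem hg hh
  have e2 := Φ.comm_lead le_rfl le_rfl hg hh hl hm
  have a1 := Φ.comm_mem e1 hg
  have a2 := Φ.comm_lead (by norm_num) le_rfl e1 hg e2 hl
  have b1 := Φ.comm_mem e1 hh
  have b2 := Φ.comm_lead (by norm_num) le_rfl e1 hh e2 hm
  have c1 := Φ.comm_mem a1 b1
  have c2 := Φ.comm_lead (by norm_num) (by norm_num) a1 b1 a2 b2
  have d1 := Φ.comm_mem e1 c1
  have d2 := Φ.comm_lead (by norm_num) (by norm_num) e1 c1 e2 c2
  exact ⟨d2, d1⟩

theorem vw_deep {R : Type*} [Ring R] (J : Filt R) {g h : Rˣ} (hg : g ∈ J.V 0) (hh : h ∈ J.V 0)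
    (hc : (g : R) * h - h * g ∈ J.F 1) : vw g h ∈ J.V 3 := by
  have e1 : ⁅g, h⁆ ∈ J.V 1 := J.comm_mem_of_commute hg hh hc
  have a1 := J.comm_mem e1 hg
  have b1 := J.comm_mem e1 hh
  have c1 := J.comm_mem a1 b1
  exact J.comm_mem e1 c1

/-- iterated brackets of a list -/
def lbr {R : Type*} [Ring R] (a : R) (l : List R) : R := l.foldl br a

/-- iterated commutators of a list -/
def lcm {G : Type*} [Group G] (a : G) (l : List G) : G := l.foldl (fun x y => ⁅x, y⁆) a

/-- the determinant form is additive -/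
theorem om_add_left (p q r : ℤ × ℤ) : om (p + q) r = om p r + om q r := by
  simp only [om, Prod.fst_add, Prod.snd_add]; ring

theorem om_add_right (p q r : ℤ × ℤ) : om p (q + r) = om p q + om p r := by
  simp only [om, Prod.fst_add, Prod.snd_add]; ring

theorem om_smul_left (c : ℤ) (p q : ℤ × ℤ) : om (c • p) q = c * om p q := by
  simp only [om, Prod.smul_fst, Prod.smul_snd, smul_eq_mul]; ring

theorem om_smul_right (c : ℤ) (p q : ℤ × ℤ) : om p (c • q) = c * om p q := by
  simp only [om, Prod.smul_fst, Prod.smul_snd, smul_eq_mul]; ring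

theorem natAbs_emod_lt' (a b : ℤ) (hb : b ≠ 0) : (a % b).natAbs < b.natAbs := by
  have h1 := Int.emod_nonneg a hb
  have h2 := Int.emod_lt_abs a hb
  rw [Int.abs_eq_natAbs] at h2
  omega

/-- in a subgroup of `ℤ²` some pair has a determinant dividing all other determinants -/
theorem exists_min_pair (A : AddSubgroup (ℤ × ℤ)) :
    ∃ p ∈ A, ∃ q ∈ A, ∀ u ∈ A, ∀ v ∈ A, om p q ∣ om u v := by
  by_cases h0 : ∀ u ∈ A, ∀ v ∈ A, om u v = 0
  · exact ⟨0, A.zero_mem, 0, A.zero_mem, fun u hu v hv => by rw [h0 u hu v hv]; exact dvd_zero _⟩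
  · push Not at h0
    let P : ℕ → Prop := fun n => 0 < n ∧ ∃ p ∈ A, ∃ q ∈ A, (om p q).natAbs = n
    have hP : ∃ n, P n := by
      obtain ⟨u, hu, v, hv, huv⟩ := h0
      exact ⟨(om u v).natAbs, Int.natAbs_pos.2 huv, u, hu, v, hv, rfl⟩
    classical
    obtain ⟨hpos, p, hp, q, hq, hpq⟩ := Nat.find_spec hP
    have hmin : ∀ u ∈ A, ∀ v ∈ A, (om u v).natAbs < (om p q).natAbs → om u v = 0 := by
      intro u hu v hv hlt
      by_contra hne
      rw [hpq] at hlt
      exact Nat.find_min hP hlt ⟨Int.natAbs_pos.2 hne, u, hu, v, hv, rfl⟩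
    have hD : om p q ≠ 0 := by
      rw [← Int.natAbs_pos, hpq]; exact hpos
    -- every `om u q` and `om p u` is divisible
    have h1 : ∀ u ∈ A, om p q ∣ om u q := by
      intro u hu
      apply Int.dvd_of_emod_eq_zero
      have e : om (u - (om u q / om p q) • p) q = om u q % om p q := by
        rw [sub_eq_add_neg, om_add_left, ← neg_smul, om_smul_left, Int.emod_def]; ring
      rw [← e]
      apply hmin _ (A.sub_mem hu (A.zsmul_mem hp _)) _ hq
      rw [e]
      exact natAbs_emod_lt' _ _ hD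
    have h2 : ∀ u ∈ A, om p q ∣ om p u := by
      intro u hu
      apply Int.dvd_of_emod_eq_zero
      have e : om p (u - (om p u / om p q) • q) = om p u % om p q := by
        rw [sub_eq_add_neg, om_add_right, ← neg_smul, om_smul_right, Int.emod_def]; ring
      rw [← e]
      apply hmin _ hp _ (A.sub_mem hu (A.zsmul_mem hq _))
      rw [e]
      exact natAbs_emod_lt' _ _ hD
    refine ⟨p, hp, q, hq, fun u hu v hv => ?_⟩
    obtain ⟨a, ha⟩ := h2 u hu
    obtain ⟨b, hb⟩ := h1 v hv
    obtain ⟨c, hc⟩ := h2 v hv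
    obtain ⟨d, hd⟩ := h1 u hu
    have pl2 : om p q * om u v = om u q * om p v - om v q * om p u := by
      simp only [om]; ring
    have : om p q * om u v = om p q * (om p q * (d * c - b * a)) := by
      rw [pl2, hd, hc, hb, ha]; ring
    exact ⟨_, mul_left_cancel₀ hD this⟩

end Pool.Agent.H.MP_7a18c0_al
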