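import Mathlib

set_option autoImplicit false

namespace Pool.Agent.H.MP_7a18c0_al

open Subgroup
open scoped commutatorElement

/-- iterated commutator `[K, H, ..., H]` with `n` copies of `H` -/
def itc {G : Type*} [Group G] (K H : Subgroup G) : ℕ → Subgroup G
  | 0 => K
  | n + 1 => ⁅itc K H n, H⁆

theorem sup_normal_step {G : Type*} [Group G] (C H : Subgroup G) :
    H ⊔ C ≤ normalizer ((H ⊔ ⁅C, H⁆ : Subgroup G) : Set G) := by
  apply sup_le
  · exact le_sup_left.trans le_normalizer
  · have key : ∀ c ∈ C, H ⊔ ⁅C, H⁆ ≤ (H ⊔ ⁅C, H⁆).comap (MulAut.conj c).toMonoidHom := by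
      intro c hc
      apply sup_le
      · intro h hh
        rw [mem_comap]
        have e1 : (MulAut.conj c).toMonoidHom h = ⁅c, h⁆ * h := by
          simp [commutatorElement_def, mul_assoc]
        rw [e1]
        exact mul_mem (le_sup_right (a := H) (commutator_mem_commutator hc hh))
          (le_sup_left (b := ⁅C, H⁆) hh)
      · intro k hk
        rw [mem_comap]
        apply le_sup_right (a := H)
        have := normalizer_commutator_ge_left (H₁ := C) (H₂ := H) hc
        rw [mem_normalizer_iff] at this
        simpa using (this k).1 hk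
    intro c hc
    rw [mem_normalizer_iff]
    intro k
    constructor
    · intro hk
      simpa using key c hc hk
    · intro hk
      have := key c⁻¹ (inv_mem hc) hk
      simpa [mul_assoc] using this

theorem chain_of_itc {G : Type*} [Group G] (H : Subgroup G) (n : ℕ)
    (h : itc ⊤ H n ≤ H) :
    ∃ f : ℕ → Subgroup G, f 0 = H ∧ f n = ⊤ ∧
        ∀ i, i < n → f i ≤ f (i + 1) ∧ ((f i).subgroupOf (f (i + 1))).Normal := by
  refine ⟨fun i => H ⊔ itc ⊤ H (n - i), ?_, ?_, ?_⟩
  · simpa using h
  · simp [itc]
  · intro i hi
    have e : n - i = (n - (i + 1)) + 1 := by omega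
    have hle : H ⊔ itc ⊤ H (n - i) ≤ H ⊔ itc ⊤ H (n - (i + 1)) := by
      rw [e]
      simp only [itc]
      apply sup_le le_sup_left
      rw [sup_comm]
      exact commutator_le_sup _ _
    refine ⟨hle, ?_⟩
    rw [normal_subgroupOf_iff_le_normalizer hle]
    rw [e]
    exact sup_normal_step _ _

theorem map_itc {G G' : Type*} [Group G] [Group G'] (f : G →* G') (K H : Subgroup G) (n : ℕ) :
    (itc K H n).map f = itc (K.map f) (H.map f) n := by
  induction n with
  | zero => rfl
  | succ n ih => simp only [itc, map_commutator, ih]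

end Pool.Agent.H.MP_7a18c0_al
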