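import Pool.Agent.H.MP_7a18c0_al.Zeta

set_option autoImplicit false

namespace Pool.Agent.H.MP_7a18c0_al

/-- entries of the iterated bracket of length 2 -/
def C2 : ℕ → S5
  | 0 => !![2, 0, 0, 0, 0; 0, 0, 0, 0, 0; 0, 0, 0, 0, 0; 0, 0, 0, 0, 0; 0, 0, 0, 0, 0]
  | 1 => !![-1, 0, 0, 0, 0; 0, -1, 0, 0, 0; 0, 0, 0, 0, 0; 0, 0, 0, 0, 0; 0, 0, 0, 0, 0]
  | 5 => !![30, 0, 0, 0, 0; 0, 10, 0, 0, 0; 0, 0, 10, 0, 0; 0, 0, 0, 30, 0; 0, 0, 0, 0, 24]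
  | _ => 0

/-- entries of the iterated bracket of length 3 -/
def C3 : ℕ → S5
  | 0 => !![3, 0, 0, 0, 0; 0, 0, 0, 0, 0; 0, 0, 0, 0, 0; 0, 0, 0, 0, 0; 0, 0, 0, 0, 0]
  | 1 => !![-1, 0, 0, 0, 0; 0, -1, 0, 0, 0; 0, 0, 0, 0, 0; 0, 0, 0, 0, 0; 0, 0, 0, 0, 0]
  | 4 => !![-30, 0, 0, 0, 0; 0, -10, 0, 0, 0; 0, 0, -10, 0, 0; 0, 0, 0, -30, 0; 0, 0, 0, 0, -24]
  | 5 => !![0, 0, 0, 0, 0; -10, 0, 0, 0, 0; 0, -10, 0, 0, 0; 0, 0, -30, 0, 0; 0, 0, 0, -24, 0]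
  | _ => 0

/-- entries of the iterated bracket of length 4 -/
def C4 : ℕ → S5
  | 0 => !![4, 0, 0, 0, 0; 0, 0, 0, 0, 0; 0, 0, 0, 0, 0; 0, 0, 0, 0, 0; 0, 0, 0, 0, 0]
  | 1 => !![-1, 0, 0, 0, 0; 0, -1, 0, 0, 0; 0, 0, 0, 0, 0; 0, 0, 0, 0, 0; 0, 0, 0, 0, 0]
  | 3 => !![30, 0, 0, 0, 0; 0, 10, 0, 0, 0; 0, 0, 10, 0, 0; 0, 0, 0, 30, 0; 0, 0, 0, 0, 24]
  | 4 => !![0, 0, 0, 0, 0; 20, 0, 0, 0, 0; 0, 20, 0, 0, 0; 0, 0, 60, 0, 0; 0, 0, 0, 48, 0]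
  | 5 => !![0, 0, 0, 0, 0; 0, 0, 0, 0, 0; 10, 0, 0, 0, 0; 0, 30, 0, 0, 0; 0, 0, 24, 0, 0]
  | _ => 0

/-- entries of the iterated bracket of length 5 -/
def C5 : ℕ → S5
  | 0 => !![5, 0, 0, 0, 0; 0, 0, 0, 0, 0; 0, 0, 0, 0, 0; 0, 0, 0, 0, 0; 0, 0, 0, 0, 0]
  | 1 => !![-1, 0, 0, 0, 0; 0, -1, 0, 0, 0; 0, 0, 0, 0, 0; 0, 0, 0, 0, 0; 0, 0, 0, 0, 0]
  | 2 => !![-30, 0, 0, 0, 0; 0, -10, 0, 0, 0; 0, 0, -10, 0, 0; 0, 0, 0, -30, 0; 0, 0, 0, 0, -24]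
  | 3 => !![0, 0, 0, 0, 0; -30, 0, 0, 0, 0; 0, -30, 0, 0, 0; 0, 0, -90, 0, 0; 0, 0, 0, -72, 0]
  | 4 => !![0, 0, 0, 0, 0; 0, 0, 0, 0, 0; -30, 0, 0, 0, 0; 0, -90, 0, 0, 0; 0, 0, -72, 0, 0]
  | 5 => !![0, 0, 0, 0, 0; 0, 0, 0, 0, 0; 0, 0, 0, 0, 0; -30, 0, 0, 0, 0; 0, 0, 0, 0, 0]
  | _ => 0

/-- entries of the iterated bracket of length 6 -/
def C6 : ℕ → S5
  | 0 => !![6, 0, 0, 0, 0; 0, 0, 0, 0, 0; 0, 0, 0, 0, 0; 0, 0, 0, 0, 0; 0, 0, 0, 0, 0]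
  | 1 => !![0, 0, 0, 0, 0; -24, 0, 0, 0, 0; 0, 0, 0, 0, 0; 0, 0, 0, 0, 0; 0, 0, 0, 0, 0]
  | 2 => !![0, 0, 0, 0, 0; 40, 0, 0, 0, 0; 0, 40, 0, 0, 0; 0, 0, 120, 0, 0; 0, 0, 0, 96, 0]
  | 3 => !![0, 0, 0, 0, 0; 0, 0, 0, 0, 0; 60, 0, 0, 0, 0; 0, 180, 0, 0, 0; 0, 0, 144, 0, 0]
  | 4 => !![0, 0, 0, 0, 0; 0, 0, 0, 0, 0; 0, 0, 0, 0, 0; 120, 0, 0, 0, 0; 0, 0, 0, 0, 0]
  | _ => 0

/-- entries of the iterated bracket of length 7 -/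
def C7 : ℕ → S5
  | 0 => !![168, 0, 0, 0, 0; 0, 0, 0, 0, 0; 0, 0, 0, 0, 0; 0, 0, 0, 0, 0; 0, 0, 0, 0, 0]
  | 1 => !![0, 0, 0, 0, 0; -24, 0, 0, 0, 0; 0, 0, 0, 0, 0; 0, 0, 0, 0, 0; 0, 0, 0, 0, 0]
  | 2 => !![0, 0, 0, 0, 0; -20, 0, 0, 0, 0; 0, -140, 0, 0, 0; 0, 0, -24, 0, 0; 0, 0, 0, 96, 0]
  | 3 => !![0, 0, 0, 0, 0; 0, 0, 0, 0, 0; -60, 0, 0, 0, 0; 0, 0, 0, 0, 0; 0, 0, 0, 0, 0]
  | _ => 0

/-- entries of the iterated bracket of length 8 -/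
def C8 : ℕ → S5
  | 0 => !![192, 0, 0, 0, 0; 0, 0, 0, 0, 0; 0, 0, 0, 0, 0; 0, 0, 0, 0, 0; 0, 0, 0, 0, 0]
  | 1 => !![0, 0, 0, 0, 0; -24, 0, 0, 0, 0; 0, 0, 0, 0, 0; 0, 0, 0, 0, 0; 0, 0, 0, 0, 0]
  | 2 => !![0, 0, 0, 0, 0; 40, 0, 0, 0, 0; 0, 0, 0, 0, 0; 0, 0, 0, 0, 0; 0, 0, 0, 0, 0]
  | _ => 0

/-- entries of the iterated bracket of length 9 -/
def C9 : ℕ → S5
  | 0 => !![216, 0, 0, 0, 0; 0, 0, 0, 0, 0; 0, 0, 0, 0, 0; 0, 0, 0, 0, 0; 0, 0, 0, 0, 0]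
  | 1 => !![0, 0, 0, 0, 0; -24, 0, 0, 0, 0; 0, 0, 0, 0, 0; 0, 0, 0, 0, 0; 0, 0, 0, 0, 0]
  | _ => 0

/-- entries of the iterated bracket of length 10 -/
def C10 : ℕ → S5
  | 0 => !![240, 0, 0, 0, 0; 0, 0, 0, 0, 0; 0, 0, 0, 0, 0; 0, 0, 0, 0, 0; 0, 0, 0, 0, 0]
  | _ => 0

theorem C2_spec (i : ℕ) (h : i + 2 < 11) :
    T i (1, 0) * T (i + 1) (0, 1) - T i (0, 1) * T (i + 1) (1, 0) = C2 i := by
  have h' : i < 9 := by omega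
  interval_cases i
  all_goals
    ext a b
    fin_cases a <;> fin_cases b <;> rfl

theorem C3_spec (i : ℕ) (h : i + 3 < 11) :
    C2 i * T (i + 2) (1, 0) - T i (1, 0) * C2 (i + 1) = C3 i := by
  have h' : i < 8 := by omega
  interval_cases i
  all_goals
    ext a b
    fin_cases a <;> fin_cases b <;> rfl

theorem C4_spec (i : ℕ) (h : i + 4 < 11) :
    C3 i * T (i + 3) (1, 0) - T i (1, 0) * C3 (i + 1) = C4 i := by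
  have h' : i < 7 := by omega
  interval_cases i
  all_goals
    ext a b
    fin_cases a <;> fin_cases b <;> rfl

theorem C5_spec (i : ℕ) (h : i + 5 < 11) :
    C4 i * T (i + 4) (1, 0) - T i (1, 0) * C4 (i + 1) = C5 i := by
  have h' : i < 6 := by omega
  interval_cases i
  all_goals
    ext a b
    fin_cases a <;> fin_cases b <;> rfl

theorem C6_spec (i : ℕ) (h : i + 6 < 11) :
    C5 i * T (i + 5) (1, 0) - T i (1, 0) * C5 (i + 1) = C6 i := by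
  have h' : i < 5 := by omega
  interval_cases i
  all_goals
    ext a b
    fin_cases a <;> fin_cases b <;> rfl

theorem C7_spec (i : ℕ) (h : i + 7 < 11) :
    C6 i * T (i + 6) (0, 1) - T i (0, 1) * C6 (i + 1) = C7 i := by
  have h' : i < 4 := by omega
  interval_cases i
  all_goals
    ext a b
    fin_cases a <;> fin_cases b <;> rfl

theorem C8_spec (i : ℕ) (h : i + 8 < 11) :
    C7 i * T (i + 7) (0, 1) - T i (0, 1) * C7 (i + 1) = C8 i := by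
  have h' : i < 3 := by omega
  interval_cases i
  all_goals
    ext a b
    fin_cases a <;> fin_cases b <;> rfl

theorem C9_spec (i : ℕ) (h : i + 9 < 11) :
    C8 i * T (i + 8) (0, 1) - T i (0, 1) * C8 (i + 1) = C9 i := by
  have h' : i < 2 := by omega
  interval_cases i
  all_goals
    ext a b
    fin_cases a <;> fin_cases b <;> rfl

theorem C10_spec (i : ℕ) (h : i + 10 < 11) :
    C9 i * T (i + 9) (0, 1) - T i (0, 1) * C9 (i + 1) = C10 i := by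
  have h' : i < 1 := by omega
  interval_cases i
  all_goals
    ext a b
    fin_cases a <;> fin_cases b <;> rfl

end Pool.Agent.H.MP_7a18c0_al
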