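import Pool.Agent.H.MP_7a18c0_al.Main2
import Pool.Agent.H.MP_7a18c0_al.Lit

set_option autoImplicit false

namespace Pool.Agent.H.MP_7a18c0_al

/-- first superdiagonal -/
def xs (i : ℕ) : ℤ := [0, 1, 0, 0, 1, 1, 1, 0].getD i 0

/-- second superdiagonal -/
def ys (i : ℕ) : ℤ := [1, 0, 1, 1, 0, 0, 0, 1].getD i 0

/-- the three blocks -/
def blk (i : Fin 11) : ℕ := if (i : ℕ) < 2 then 0 else if (i : ℕ) < 7 then 1 else 2

theorem Mm_add (p q : ℤ × ℤ) : Mm (p + q) = Mm p + Mm q := by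
  ext i j; fin_cases i <;> fin_cases j <;> simp [Mm]

theorem Pm_add (p q : ℤ × ℤ) : Pm (p + q) = Pm p + Pm q := by
  ext i j; fin_cases i <;> fin_cases j <;> simp [Pm] <;> ring

theorem T_add (i : ℕ) (p q : ℤ × ℤ) : T i (p + q) = T i p + T i q := by
  rcases i with _ | _ | _ | _ | _ | _ | _ | _ | _ | _ | i
  all_goals simp only [T, Mm_add, Pm_add, mul_add, add_mul, add_zero]

theorem Mm_comm (p q : ℤ × ℤ) : Mm p * Mm q = Mm q * Mm p := by
  ext i j
  fin_cases i <;> fin_cases j <;> simp [Mm, Matrix.mul_apply, Fin.sum_univ_succ] <;> ring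

theorem Pm_comm (p q : ℤ × ℤ) : Pm p * Pm q = Pm q * Pm p := by
  ext i j
  fin_cases i <;> fin_cases j <;> simp [Pm, Matrix.mul_apply, Fin.sum_univ_succ] <;> ring

/-- linear parts in the first ring -/
def chi1 : ℤ × ℤ →+ Matrix (Fin 9) (Fin 9) ℤ :=
  AddMonoidHom.mk' (fun p => hom 9 1 (fun i => p.1 * xs i + p.2 * ys i)) (by
    intro p q
    rw [hom_add]
    congr 1
    funext i
    simp only [Prod.fst_add, Prod.snd_add]
    ring)

/-- linear parts in the second ring -/
def chi2 : ℤ × ℤ →+ Matrix (Fin 11) (Fin 11) S5 :=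
  AddMonoidHom.mk' (fun p => hom 11 1 (fun i => T i p)) (by
    intro p q
    rw [hom_add]
    congr 1
    funext i
    exact T_add i p q)

theorem chi1_apply (p : ℤ × ℤ) : chi1 p = hom 9 1 (fun i => p.1 * xs i + p.2 * ys i) := rfl

theorem chi2_apply (p : ℤ × ℤ) : chi2 p = hom 11 1 (fun i => T i p) := rfl

theorem br_hom {S : Type} [Ring S] (n k l : ℕ) (A B : ℕ → S) :
    br (hom n k A) (hom n l B) = hom n (k + l) (fun i => A i * B (i + k) - B i * A (i + l)) :=
  hom_bracket n k l A B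

theorem hv : v8 (chi1 (1, 0)) (chi1 (0, 1)) = hom 9 8 (fun _ => 1) := by
  rw [chi1_apply, chi1_apply]
  unfold v8
  simp only [br_hom]
  apply hom_congr
  intro i hi
  have : i = 0 := by omega
  subst this
  decide

theorem chi_comm (p q : ℤ × ℤ) :
    chi2 p * chi2 q - chi2 q * chi2 p ∈ (matFilt 11 S5 blk).F 1 := by
  rw [chi2_apply, chi2_apply, hom_bracket]
  intro i j hij
  rw [hom_apply]
  split_ifs with h
  · have hi : (i : ℕ) < 9 := by omega
    have hi' : (i : ℕ) = 2 ∨ (i : ℕ) = 3 ∨ (i : ℕ) = 4 ∨ (i : ℕ) = 7 ∨ (i : ℕ) = 8 := by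
      unfold blk at hij
      split_ifs at hij <;> omega
    rcases hi' with h | h | h | h | h
    all_goals rw [h]
    · change Mm p * Mm q - Mm q * Mm p = 0
      rw [Mm_comm, sub_self]
    · change Mm p * Mm q - Mm q * Mm p = 0
      rw [Mm_comm, sub_self]
    · change Mm p * Mm q - Mm q * Mm p = 0
      rw [Mm_comm, sub_self]
    · change Pm p * Pm q - Pm q * Pm p = 0
      rw [Pm_comm, sub_self]
    · change Pm p * (Pm q * Z0) - Pm q * (Pm p * Z0) = 0
      rw [← mul_assoc, ← mul_assoc, Pm_comm, sub_self]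
  · rfl

theorem hprod (L : List (ℤ × ℤ)) (hL : L.length = 10) :
    (L.map chi2).prod = psiW (fun i j => om (L.getD i 0) (L.getD j 0)) • hom 11 10 (fun _ => Z0) := by
  match L, hL with
  | [u0, u1, u2, u3, u4, u5, u6, u7, u8, u9], _ =>
    simp only [List.map_cons, List.map_nil, List.prod_cons, List.prod_nil, mul_one, chi2_apply]
    simp only [hom_mul]
    rw [hom_zsmul]
    apply hom_congr
    intro i hi
    have : i = 0 := by omega
    subst this
    have h := T_prod (fun i => [u0, u1, u2, u3, u4, u5, u6, u7, u8, u9].getD i 0)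
    rw [← h]
    simp only [mul_assoc]
    rfl

theorem step2 : br (chi2 (1, 0)) (chi2 (0, 1)) = hom 11 2 C2 := by
  rw [chi2_apply, chi2_apply, br_hom]
  exact hom_congr _ _ _ _ (fun i hi => C2_spec i hi)

theorem step (k : ℕ) (p : ℤ × ℤ) (A B : ℕ → S5)
    (h : ∀ i, i + (k + 1) < 11 → A i * T (i + k) p - T i p * A (i + 1) = B i) :
    br (hom 11 k A) (chi2 p) = hom 11 (k + 1) B := by
  rw [chi2_apply, br_hom]
  exact hom_congr _ _ _ _ h

theorem hnz : lbr (chi2 (1, 0)) (word9.map chi2) ≠ 0 := by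
  have e : lbr (chi2 (1, 0)) (word9.map chi2) = hom 11 10 C10 := by
    simp only [lbr, word9, List.map_cons, List.map_nil, List.foldl_cons, List.foldl_nil]
    rw [step2, step 2 _ _ _ C3_spec, step 3 _ _ _ C4_spec, step 4 _ _ _ C5_spec,
      step 5 _ _ _ C6_spec, step 6 _ _ _ C7_spec, step 7 _ _ _ C8_spec, step 8 _ _ _ C9_spec,
      step 9 _ _ _ C10_spec]
  rw [e]
  intro h
  have h1 := congrFun (congrFun (congrFun (congrFun h 0) 10) 0) 0
  revert h1
  decide

theorem smul_pure_int (k : ℕ) (a : ℤ) (hk : 0 < k) (h : k • a = 0) : a = 0 := by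
  rw [smul_eq_zero] at h
  rcases h with h | h
  · omega
  · exact h

theorem smul_pure_S5 (k : ℕ) (a : S5) (hk : 0 < k) (h : k • a = 0) : a = 0 := by
  ext i j
  exact smul_pure_int k _ hk (congrFun (congrFun h i) j)

/-- the concrete data -/
def theData : Data (Matrix (Fin 9) (Fin 9) ℤ) (Matrix (Fin 11) (Fin 11) S5) where
  Φ₁ := matFilt 9 ℤ (fun i => (i : ℕ))
  Φ₂ := matFilt 11 S5 (fun i => (i : ℕ))
  J := matFilt 11 S5 blk
  h9 := matFilt_bot (fun i j => by omega)
  h11 := matFilt_bot (fun i j => by omega)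
  hJ := matFilt_bot (fun i j => by unfold blk; split_ifs <;> omega)
  hΦJ := by
    intro a ha i j hij
    apply ha i j
    change (j : ℕ) < (i : ℕ) + 0
    unfold blk at hij
    split_ifs at hij <;> omega
  pure₁ := fun i k a hk h => matFilt_pure (fun k a hk h => smul_pure_int k a hk h) i k a hk h
  pure₂ := fun i k a hk h => matFilt_pure (fun k a hk h => smul_pure_S5 k a hk h) i k a hk h
  χ₁ := chi1
  χ₂ := chi2
  hχ₁ := fun p => hom_mem 9 1 (fun i => p.1 * xs i + p.2 * ys i)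
  hχ₂ := fun p => hom_mem 11 1 (fun i => T i p)
  hcomm := chi_comm
  E₁ := hom 9 8 (fun _ => 1)
  E₂ := hom 11 10 (fun _ => Z0)
  hE₁ := hom_mem 9 8 _
  hE₂ := hom_mem 11 10 _
  hv := hv
  hprod := hprod
  hnz := hnz
  prim := by
    intro k q a hk h
    have h1 := congrFun (congrFun h 0) 8
    rw [Matrix.smul_apply, Matrix.smul_apply, hom_apply] at h1
    refine ⟨a 0 8, ?_⟩
    simpa using h1.symm
  hE₁0 := by
    intro q h
    have h1 := congrFun (congrFun h 0) 8
    rw [Matrix.smul_apply, hom_apply] at h1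
    simpa using h1

end Pool.Agent.H.MP_7a18c0_al
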