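import Mathlib

set_option autoImplicit false

namespace Pool.Agent.H.MP_7a18c0_al

open Subgroup
open scoped commutatorElement

/-- a decreasing multiplicative filtration of a ring by additive subgroups -/
structure Filt (R : Type*) [Ring R] where
  F : ℕ → AddSubgroup R
  one_mem : (1 : R) ∈ F 0
  mul_mem : ∀ {i j : ℕ} {a b : R}, a ∈ F i → b ∈ F j → a * b ∈ F (i + j)
  anti : ∀ {i j : ℕ}, i ≤ j → F j ≤ F i

namespace Filt

variable {R : Type*} [Ring R] (Φ : Filt R)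

theorem mul_mem_of_le {i j k : ℕ} {a b : R} (ha : a ∈ Φ.F i) (hb : b ∈ Φ.F j) (h : k ≤ i + j) :
    a * b ∈ Φ.F k := Φ.anti h (Φ.mul_mem ha hb)

theorem pow_mem {i : ℕ} {a : R} (ha : a ∈ Φ.F i) (n : ℕ) : a ^ n ∈ Φ.F (i * n) := by
  induction n with
  | zero => simpa using Φ.one_mem
  | succ n ih =>
    rw [pow_succ]
    have := Φ.mul_mem ih ha
    rwa [mul_add, mul_one]

/-- units congruent to `1` modulo `F k` -/
def V (k : ℕ) : Subgroup Rˣ where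
  carrier := {g | (g : R) - 1 ∈ Φ.F k ∧ ((g⁻¹ : Rˣ) : R) - 1 ∈ Φ.F k}
  one_mem' := by simp [(Φ.F k).zero_mem]
  mul_mem' := by
    have aux : ∀ a b : R, a - 1 ∈ Φ.F k → b - 1 ∈ Φ.F k → a * b - 1 ∈ Φ.F k := by
      intro a b ha hb
      have e : a * b - 1 = (a - 1) * (b - 1) + (a - 1) + (b - 1) := by noncomm_ring
      rw [e]
      exact add_mem (add_mem (Φ.mul_mem_of_le ha hb (by omega)) ha) hb
    intro g h hg hh
    refine ⟨?_, ?_⟩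
    · rw [Units.val_mul]; exact aux _ _ hg.1 hh.1
    · rw [mul_inv_rev, Units.val_mul]; exact aux _ _ hh.2 hg.2
  inv_mem' := by
    intro g hg
    exact ⟨hg.2, by simpa using hg.1⟩

theorem mem_V {k : ℕ} {g : Rˣ} :
    g ∈ Φ.V k ↔ (g : R) - 1 ∈ Φ.F k ∧ ((g⁻¹ : Rˣ) : R) - 1 ∈ Φ.F k := Iff.rfl

theorem V_anti {i j : ℕ} (h : i ≤ j) : Φ.V j ≤ Φ.V i := fun _ hg =>
  ⟨Φ.anti h hg.1, Φ.anti h hg.2⟩

theorem coe_mem_zero {k : ℕ} {g : Rˣ} (hg : g ∈ Φ.V k) : (g : R) ∈ Φ.F 0 := by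
  have := add_mem (Φ.anti (Nat.zero_le k) hg.1) Φ.one_mem
  simpa using this

theorem coe_inv_mem_zero {k : ℕ} {g : Rˣ} (hg : g ∈ Φ.V k) : ((g⁻¹ : Rˣ) : R) ∈ Φ.F 0 :=
  Φ.coe_mem_zero (inv_mem hg)

theorem eq_one_of_mem_V {k : ℕ} (hk : Φ.F k = ⊥) {g : Rˣ} (hg : g ∈ Φ.V k) : g = 1 := by
  have := hg.1
  rw [hk, AddSubgroup.mem_bot, sub_eq_zero] at this
  exact Units.ext this

theorem comm_sub_one (g h : Rˣ) : ((⁅g, h⁆ : Rˣ) : R) - 1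
    = ((g : R) * h - h * g) * ((g⁻¹ : Rˣ) : R) * ((h⁻¹ : Rˣ) : R) := by
  have e : (h : R) * g * ((g⁻¹ : Rˣ) : R) * ((h⁻¹ : Rˣ) : R) = 1 := by
    rw [mul_assoc (h : R), Units.mul_inv, mul_one, Units.mul_inv]
  rw [commutatorElement_def, sub_mul, sub_mul, e]
  simp [Units.val_mul]

/-- commutators of elements commuting modulo `F k` -/
theorem comm_mem_of_commute {k : ℕ} {g h : Rˣ} (hg : g ∈ Φ.V 0) (hh : h ∈ Φ.V 0)
    (hc : (g : R) * h - h * g ∈ Φ.F k) : ⁅g, h⁆ ∈ Φ.V k := by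
  constructor
  · rw [comm_sub_one]
    exact Φ.mul_mem (Φ.mul_mem hc (Φ.coe_inv_mem_zero hg)) (Φ.coe_inv_mem_zero hh)
  · rw [commutatorElement_inv, comm_sub_one]
    have hc' : (h : R) * g - g * h ∈ Φ.F k := by
      have := neg_mem hc
      rwa [neg_sub] at this
    exact Φ.mul_mem (Φ.mul_mem hc' (Φ.coe_inv_mem_zero hh)) (Φ.coe_inv_mem_zero hg)

theorem comm_mem {i j : ℕ} {g h : Rˣ} (hg : g ∈ Φ.V i) (hh : h ∈ Φ.V j) :
    ⁅g, h⁆ ∈ Φ.V (i + j) := by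
  apply Φ.comm_mem_of_commute (Φ.V_anti (Nat.zero_le _) hg) (Φ.V_anti (Nat.zero_le _) hh)
  have e : (g : R) * h - h * g = ((g : R) - 1) * (h - 1) - (h - 1) * (g - 1) := by noncomm_ring
  rw [e]
  refine sub_mem (Φ.mul_mem hg.1 hh.1) ?_
  rw [add_comm]
  exact Φ.mul_mem hh.1 hg.1

/-- leading term of a commutator -/
theorem comm_lead {i j : ℕ} (hi : 1 ≤ i) (hj : 1 ≤ j) {g h : Rˣ} (hg : g ∈ Φ.V i) (hh : h ∈ Φ.V j)
    {l m : R} (hl : (g : R) - 1 - l ∈ Φ.F (i + 1)) (hm : (h : R) - 1 - m ∈ Φ.F (j + 1)) :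
    ((⁅g, h⁆ : Rˣ) : R) - 1 - (l * m - m * l) ∈ Φ.F (i + j + 1) := by
  have hl0 : l ∈ Φ.F i := by
    have := sub_mem hg.1 (Φ.anti (Nat.le_succ i) hl)
    simpa using this
  have hm0 : m ∈ Φ.F j := by
    have := sub_mem hh.1 (Φ.anti (Nat.le_succ j) hm)
    simpa using this
  set u : R := (g : R) - 1 with hu
  set v : R := (h : R) - 1 with hv
  have hgu : (g : R) = 1 + u := by rw [hu]; abel
  have hhv : (h : R) = 1 + v := by rw [hv]; abel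
  have ew : (g : R) * h - h * g = u * v - v * u := by rw [hgu, hhv]; noncomm_ring
  have hw : u * v - v * u ∈ Φ.F (i + j) :=
    sub_mem (Φ.mul_mem hg.1 hh.1) (Φ.mul_mem_of_le hh.1 hg.1 (by omega))
  rw [comm_sub_one, ew]
  set p : R := ((g⁻¹ : Rˣ) : R) - 1 with hp
  set q : R := ((h⁻¹ : Rˣ) : R) - 1 with hq
  have hgp : ((g⁻¹ : Rˣ) : R) = 1 + p := by rw [hp]; abel
  have hhq : ((h⁻¹ : Rˣ) : R) = 1 + q := by rw [hq]; abel
  have hp1 : p ∈ Φ.F 1 := Φ.anti hi hg.2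
  have hq1 : q ∈ Φ.F 1 := Φ.anti hj hh.2
  rw [hgp, hhq]
  have e2 : (u * v - v * u) * (1 + p) * (1 + q) - (l * m - m * l)
      = ((u - l) * v + l * (v - m) - ((v - m) * u + m * (u - l)))
        + ((u * v - v * u) * (p + q + p * q)) := by noncomm_ring
  rw [e2]
  refine add_mem (sub_mem (add_mem ?_ ?_) (add_mem ?_ ?_)) ?_
  · exact Φ.mul_mem_of_le hl hh.1 (by omega)
  · exact Φ.mul_mem_of_le hl0 hm (by omega)
  · exact Φ.mul_mem_of_le hm hg.1 (by omega)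
  · exact Φ.mul_mem_of_le hm0 hl (by omega)
  · refine Φ.mul_mem hw (add_mem (add_mem hp1 hq1) (Φ.mul_mem_of_le hp1 hq1 (by omega)))

theorem lead_mul {k : ℕ} (hk : 1 ≤ k) {g h : Rˣ} (hg : g ∈ Φ.V k) (hh : h ∈ Φ.V k) {l m : R}
    (hgl : (g : R) - 1 - l ∈ Φ.F (k + 1)) (hhm : (h : R) - 1 - m ∈ Φ.F (k + 1)) :
    ((g * h : Rˣ) : R) - 1 - (l + m) ∈ Φ.F (k + 1) := by
  rw [Units.val_mul]
  have e : (g : R) * h - 1 - (l + m)
      = (g - 1) * (h - 1) + ((g : R) - 1 - l) + ((h : R) - 1 - m) := by noncomm_ring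
  rw [e]
  exact add_mem (add_mem (Φ.mul_mem_of_le hg.1 hh.1 (by omega)) hgl) hhm

theorem lead_inv {k : ℕ} (hk : 1 ≤ k) {g : Rˣ} (hg : g ∈ Φ.V k) {l : R}
    (hgl : (g : R) - 1 - l ∈ Φ.F (k + 1)) :
    ((g⁻¹ : Rˣ) : R) - 1 - (-l) ∈ Φ.F (k + 1) := by
  have e1 : ((g : R) - 1) * (((g⁻¹ : Rˣ) : R) - 1) = 1 - g - ((g⁻¹ : Rˣ) : R) + 1 := by
    rw [sub_mul, mul_sub, Units.mul_inv]; noncomm_ring
  have e : ((g⁻¹ : Rˣ) : R) - 1 - (-l)
      = -((g : R) - 1 - l) - ((g : R) - 1) * (((g⁻¹ : Rˣ) : R) - 1) := by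
    rw [e1]; abel
  rw [e]
  exact sub_mem (neg_mem hgl) (Φ.mul_mem_of_le hg.1 hg.2 (by omega))

/-- the elements of `V k` whose leading term lies in a given additive group -/
def VL (k : ℕ) (hk : 1 ≤ k) (L : AddSubgroup R) : Subgroup Rˣ where
  carrier := {g | g ∈ Φ.V k ∧ ∃ l ∈ L, (g : R) - 1 - l ∈ Φ.F (k + 1)}
  one_mem' := ⟨(Φ.V k).one_mem, 0, L.zero_mem, by simp [(Φ.F (k + 1)).zero_mem]⟩
  mul_mem' := by
    rintro g h ⟨hg, l, hl, hgl⟩ ⟨hh, m, hm, hhm⟩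
    exact ⟨(Φ.V k).mul_mem hg hh, l + m, L.add_mem hl hm, Φ.lead_mul hk hg hh hgl hhm⟩
  inv_mem' := by
    rintro g ⟨hg, l, hl, hgl⟩
    exact ⟨inv_mem hg, -l, L.neg_mem hl, Φ.lead_inv hk hg hgl⟩

theorem mem_VL {k : ℕ} {hk : 1 ≤ k} {L : AddSubgroup R} {g : Rˣ} :
    g ∈ Φ.VL k hk L ↔ g ∈ Φ.V k ∧ ∃ l ∈ L, (g : R) - 1 - l ∈ Φ.F (k + 1) := Iff.rfl

/-- `1 + u` is a unit for `u ∈ F 1` if the filtration is nilpotent -/
theorem exists_unit {n : ℕ} (hn : Φ.F n = ⊥) {u : R} (hu : u ∈ Φ.F 1) :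
    ∃ g : Rˣ, (g : R) = 1 + u ∧ g ∈ Φ.V 1 := by
  have hpow : (-u) ^ n = 0 := by
    have := Φ.pow_mem (neg_mem hu) n
    rwa [one_mul, hn, AddSubgroup.mem_bot] at this
  have h1 : (1 + u) * (∑ i ∈ Finset.range n, (-u) ^ i) = 1 := by
    have := mul_neg_geom_sum (-u) n
    rwa [hpow, sub_zero, sub_neg_eq_add] at this
  have h2 : (∑ i ∈ Finset.range n, (-u) ^ i) * (1 + u) = 1 := by
    have := geom_sum_mul_neg (-u) n
    rwa [hpow, sub_zero, sub_neg_eq_add] at this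
  refine ⟨⟨1 + u, ∑ i ∈ Finset.range n, (-u) ^ i, h1, h2⟩, rfl, ?_, ?_⟩
  · simpa using hu
  · change (∑ i ∈ Finset.range n, (-u) ^ i) - 1 ∈ Φ.F 1
    have e : (∑ i ∈ Finset.range n, (-u) ^ i) - 1 = - (u * (∑ i ∈ Finset.range n, (-u) ^ i)) := by
      have : (∑ i ∈ Finset.range n, (-u) ^ i) + u * (∑ i ∈ Finset.range n, (-u) ^ i) = 1 := by
        rw [← h1]; noncomm_ring
      rw [← this]; abel
    rw [e]
    refine neg_mem (Φ.mul_mem_of_le hu (j := 0) (sum_mem fun i _ => ?_) (by omega))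
    exact Φ.anti (Nat.zero_le _) (Φ.pow_mem (neg_mem hu) i)

/-- powers -/
theorem pow_sub {i : ℕ} {g : R} (hg : g - 1 ∈ Φ.F i) (k : ℕ) :
    g ^ k - 1 - k • (g - 1) ∈ Φ.F (2 * i) := by
  induction k with
  | zero => simp [(Φ.F (2 * i)).zero_mem]
  | succ k ih =>
    have hgk : g ^ k - 1 ∈ Φ.F i := by
      have h1 : g ^ k - 1 - k • (g - 1) ∈ Φ.F i := Φ.anti (by omega) ih
      have h2 : k • (g - 1) ∈ Φ.F i := nsmul_mem hg k
      have := add_mem h1 h2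
      simpa using this
    have e : g ^ (k + 1) - 1 - (k + 1) • (g - 1)
        = (g ^ k - 1 - k • (g - 1)) + (g ^ k - 1) * (g - 1) := by
      rw [pow_succ, add_smul, one_smul]; noncomm_ring
    rw [e]
    exact add_mem ih (Φ.mul_mem_of_le hgk hg (by omega))

/-- if `g ^ k = 1 + c` with `c` deep then `g - 1` is deep, provided the filtration is pure -/
theorem deep_of_pow_deep (hpure : ∀ i (k : ℕ) (a : R), 0 < k → k • a ∈ Φ.F i → a ∈ Φ.F i)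
    {g : R} (hg : g - 1 ∈ Φ.F 1) {k : ℕ} (hk : 0 < k) {n : ℕ} (hn : 1 ≤ n)
    (h : g ^ k - 1 ∈ Φ.F n) : g - 1 ∈ Φ.F n := by
  induction n, hn using Nat.le_induction with
  | base => exact hg
  | succ n hn ih =>
    have h1 := ih (Φ.anti (Nat.le_succ n) h)
    have h2 : g ^ k - 1 - k • (g - 1) ∈ Φ.F (n + 1) := Φ.anti (by omega) (Φ.pow_sub h1 k)
    have h3 := sub_mem h h2
    rw [sub_sub_cancel] at h3
    exact hpure _ k _ hk h3

end Filt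

end Pool.Agent.H.MP_7a18c0_al
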