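import Pool.Agent.H.MP_7a18c0_al.Chain
import Pool.Agent.H.MP_7a18c0_al.Br

set_option autoImplicit false

namespace Pool.Agent.H.MP_7a18c0_al

open Subgroup
open scoped commutatorElement

/-- the list of generators used for the nonvanishing commutator -/
def word9 : List (ℤ × ℤ) :=
  [(0, 1), (1, 0), (1, 0), (1, 0), (1, 0), (0, 1), (0, 1), (0, 1), (0, 1)]

/-- the data needed for the construction -/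
structure Data (R₁ R₂ : Type) [Ring R₁] [Ring R₂] where
  Φ₁ : Filt R₁
  Φ₂ : Filt R₂
  J : Filt R₂
  h9 : Φ₁.F 9 = ⊥
  h11 : Φ₂.F 11 = ⊥
  hJ : J.F 3 = ⊥
  hΦJ : ∀ a ∈ Φ₂.F 0, a ∈ J.F 0
  pure₁ : ∀ (i k : ℕ) (a : R₁), 0 < k → k • a ∈ Φ₁.F i → a ∈ Φ₁.F i
  pure₂ : ∀ (i k : ℕ) (a : R₂), 0 < k → k • a ∈ Φ₂.F i → a ∈ Φ₂.F i
  χ₁ : ℤ × ℤ →+ R₁
  χ₂ : ℤ × ℤ →+ R₂
  hχ₁ : ∀ p, χ₁ p ∈ Φ₁.F 1
  hχ₂ : ∀ p, χ₂ p ∈ Φ₂.F 1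
  hcomm : ∀ p q, χ₂ p * χ₂ q - χ₂ q * χ₂ p ∈ J.F 1
  E₁ : R₁
  E₂ : R₂
  hE₁ : E₁ ∈ Φ₁.F 8
  hE₂ : E₂ ∈ Φ₂.F 10
  hv : v8 (χ₁ (1, 0)) (χ₁ (0, 1)) = E₁
  hprod : ∀ L : List (ℤ × ℤ), L.length = 10 →
    (L.map χ₂).prod = psiW (fun i j => om (L.getD i 0) (L.getD j 0)) • E₂
  hnz : lbr (χ₂ (1, 0)) (word9.map χ₂) ≠ 0
  prim : ∀ (k : ℕ) (q : ℤ) (a : R₁), 0 < k → k • a = q • E₁ → (k : ℤ) ∣ q
  hE₁0 : ∀ q : ℤ, q • E₁ = 0 → q = 0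

namespace Data

variable {R₁ R₂ : Type} [Ring R₁] [Ring R₂] (Δ : Data R₁ R₂)

theorem aux_inv {R : Type} [Ring R] {a : R} (h : a * a = 0) : (1 + a) * (1 - a) = 1 := by
  have : (1 + a) * (1 - a) = 1 - a * a := by noncomm_ring
  rw [this, h, sub_zero]

theorem aux_inv' {R : Type} [Ring R] {a : R} (h : a * a = 0) : (1 - a) * (1 + a) = 1 := by
  have : (1 - a) * (1 + a) = 1 - a * a := by noncomm_ring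
  rw [this, h, sub_zero]

theorem aux_mul {R : Type} [Ring R] {a b : R} (h : a * b = 0) :
    1 + (a + b) = (1 + a) * (1 + b) := by
  have : (1 + a) * (1 + b) = 1 + (a + b) + a * b := by noncomm_ring
  rw [this, h, add_zero]

theorem smul_sq {R : Type} [Ring R] {E : R} (hE : E * E = 0) (c d : ℤ) :
    (c • E) * (d • E) = 0 := by
  rw [smul_mul_assoc, mul_smul_comm, hE, smul_zero, smul_zero]

/-- the unit `1 + c E` -/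
def uE {R : Type} [Ring R] (E : R) (hE : E * E = 0) : Multiplicative ℤ →* Rˣ where
  toFun c := ⟨1 + (Multiplicative.toAdd c) • E, 1 - (Multiplicative.toAdd c) • E,
    aux_inv (smul_sq hE _ _), aux_inv' (smul_sq hE _ _)⟩
  map_one' := by
    ext
    simp
  map_mul' := by
    intro c d
    ext
    simp only [toAdd_mul, Units.val_mul, add_smul]
    exact aux_mul (smul_sq hE _ _)

theorem uE_coe {R : Type} [Ring R] (E : R) (hE : E * E = 0) (c : ℤ) :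
    ((uE E hE (Multiplicative.ofAdd c) : Rˣ) : R) = 1 + c • E := rfl

theorem E₁_sq : Δ.E₁ * Δ.E₁ = 0 := by
  have := Δ.Φ₁.mul_mem_of_le Δ.hE₁ Δ.hE₁ (k := 9) (by omega)
  rwa [Δ.h9, AddSubgroup.mem_bot] at this

theorem E₂_sq : Δ.E₂ * Δ.E₂ = 0 := by
  have := Δ.Φ₂.mul_mem_of_le Δ.hE₂ Δ.hE₂ (k := 11) (by omega)
  rwa [Δ.h11, AddSubgroup.mem_bot] at this

/-- `(1 + c E₁, 1 + d E₂)` -/
def zz (c d : ℤ) : R₁ˣ × R₂ˣ :=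
  (uE Δ.E₁ Δ.E₁_sq (Multiplicative.ofAdd c), uE Δ.E₂ Δ.E₂_sq (Multiplicative.ofAdd d))

theorem zz_mul (a b c d : ℤ) : Δ.zz a b * Δ.zz c d = Δ.zz (a + c) (b + d) := by
  simp only [zz, Prod.mk_mul_mk, ofAdd_add, map_mul]

theorem zz_zpow (a b k : ℤ) : Δ.zz a b ^ k = Δ.zz (k * a) (k * b) := by
  simp only [zz, Prod.pow_mk, ← map_zpow]
  congr 2

theorem zz_fst (a b : ℤ) : ((Δ.zz a b).1 : R₁) = 1 + a • Δ.E₁ := rfl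

theorem zz_snd (a b : ℤ) : ((Δ.zz a b).2 : R₂) = 1 + b • Δ.E₂ := rfl

theorem zz_fst_mem (a b : ℤ) : (Δ.zz a b).1 ∈ Δ.Φ₁.V 8 := by
  constructor
  · rw [zz_fst, add_sub_cancel_left]
    exact (Δ.Φ₁.F 8).zsmul_mem Δ.hE₁ a
  · change (1 - a • Δ.E₁) - 1 ∈ _
    have : (1 - a • Δ.E₁) - 1 = -(a • Δ.E₁) := by abel
    rw [this]
    exact neg_mem ((Δ.Φ₁.F 8).zsmul_mem Δ.hE₁ a)

theorem zz_snd_mem (a b : ℤ) : (Δ.zz a b).2 ∈ Δ.Φ₂.V 10 := by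
  constructor
  · rw [zz_snd, add_sub_cancel_left]
    exact (Δ.Φ₂.F 10).zsmul_mem Δ.hE₂ b
  · change (1 - b • Δ.E₂) - 1 ∈ _
    have : (1 - b • Δ.E₂) - 1 = -(b • Δ.E₂) := by abel
    rw [this]
    exact neg_mem ((Δ.Φ₂.F 10).zsmul_mem Δ.hE₂ b)

/-- `g` has linear part `p` -/
def Lead (p : ℤ × ℤ) (g : R₁ˣ × R₂ˣ) : Prop :=
  (g.1 : R₁) - 1 - Δ.χ₁ p ∈ Δ.Φ₁.F 2 ∧ (g.2 : R₂) - 1 - Δ.χ₂ p ∈ Δ.Φ₂.F 2

/-- the pairs of unipotent elements -/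
def UU : Subgroup (R₁ˣ × R₂ˣ) := (Δ.Φ₁.V 1).prod (Δ.Φ₂.V 1)

theorem mem_UU {g : R₁ˣ × R₂ˣ} : g ∈ Δ.UU ↔ g.1 ∈ Δ.Φ₁.V 1 ∧ g.2 ∈ Δ.Φ₂.V 1 :=
  Subgroup.mem_prod

theorem lead_mul {p q : ℤ × ℤ} {g h : R₁ˣ × R₂ˣ} (hg : g ∈ Δ.UU) (hh : h ∈ Δ.UU)
    (hp : Δ.Lead p g) (hq : Δ.Lead q h) : Δ.Lead (p + q) (g * h) := by
  rw [mem_UU] at hg hh
  constructor
  · rw [map_add]
    exact Δ.Φ₁.lead_mul le_rfl hg.1 hh.1 hp.1 hq.1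
  · rw [map_add]
    exact Δ.Φ₂.lead_mul le_rfl hg.2 hh.2 hp.2 hq.2

theorem lead_inv {p : ℤ × ℤ} {g : R₁ˣ × R₂ˣ} (hg : g ∈ Δ.UU)
    (hp : Δ.Lead p g) : Δ.Lead (-p) g⁻¹ := by
  rw [mem_UU] at hg
  constructor
  · rw [map_neg]
    exact Δ.Φ₁.lead_inv le_rfl hg.1 hp.1
  · rw [map_neg]
    exact Δ.Φ₂.lead_inv le_rfl hg.2 hp.2

theorem lead_one : Δ.Lead 0 1 := by
  constructor <;> simp [zero_mem]

/-- unipotent pairs with a common integral linear part -/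
def P : Subgroup (R₁ˣ × R₂ˣ) where
  carrier := {g | g ∈ Δ.UU ∧ ∃ p, Δ.Lead p g}
  one_mem' := ⟨one_mem _, 0, Δ.lead_one⟩
  mul_mem' := by
    rintro g h ⟨hg, p, hp⟩ ⟨hh, q, hq⟩
    exact ⟨mul_mem hg hh, p + q, Δ.lead_mul hg hh hp hq⟩
  inv_mem' := by
    rintro g ⟨hg, p, hp⟩
    exact ⟨inv_mem hg, -p, Δ.lead_inv hg hp⟩

theorem exists_gen (p : ℤ × ℤ) : ∃ g : R₁ˣ × R₂ˣ, g ∈ Δ.UU ∧ (g.1 : R₁) = 1 + Δ.χ₁ p ∧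
    (g.2 : R₂) = 1 + Δ.χ₂ p := by
  obtain ⟨g₁, h1, h2⟩ := Δ.Φ₁.exists_unit Δ.h9 (Δ.hχ₁ p)
  obtain ⟨g₂, h3, h4⟩ := Δ.Φ₂.exists_unit Δ.h11 (Δ.hχ₂ p)
  exact ⟨(g₁, g₂), Δ.mem_UU.2 ⟨h2, h4⟩, h1, h3⟩

/-- the generator with linear part `p` -/
noncomputable def gen (p : ℤ × ℤ) : R₁ˣ × R₂ˣ := (Δ.exists_gen p).choose

theorem gen_mem_UU (p : ℤ × ℤ) : Δ.gen p ∈ Δ.UU := (Δ.exists_gen p).choose_spec.1

theorem gen_fst (p : ℤ × ℤ) : ((Δ.gen p).1 : R₁) = 1 + Δ.χ₁ p := (Δ.exists_gen p).choose_spec.2.1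

theorem gen_snd (p : ℤ × ℤ) : ((Δ.gen p).2 : R₂) = 1 + Δ.χ₂ p := (Δ.exists_gen p).choose_spec.2.2

theorem gen_lead (p : ℤ × ℤ) : Δ.Lead p (Δ.gen p) := by
  constructor
  · rw [gen_fst]; simp [zero_mem]
  · rw [gen_snd]; simp [zero_mem]

/-- the generating set -/
def gens : Set (R₁ˣ × R₂ˣ) := {Δ.gen (1, 0), Δ.gen (0, 1), Δ.zz 1 (-1)}

/-- the ambient group -/
def Gh : Subgroup (R₁ˣ × R₂ˣ) := closure Δ.gens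

theorem zz_mem_UU (a b : ℤ) : Δ.zz a b ∈ Δ.UU :=
  Δ.mem_UU.2 ⟨Δ.Φ₁.V_anti (by norm_num) (Δ.zz_fst_mem a b),
    Δ.Φ₂.V_anti (by norm_num) (Δ.zz_snd_mem a b)⟩

theorem zz_lead (a b : ℤ) : Δ.Lead 0 (Δ.zz a b) := by
  constructor
  · rw [map_zero, sub_zero]
    exact Δ.Φ₁.anti (by norm_num) (Δ.zz_fst_mem a b).1
  · rw [map_zero, sub_zero]
    exact Δ.Φ₂.anti (by norm_num) (Δ.zz_snd_mem a b).1

theorem Gh_le_P : Δ.Gh ≤ Δ.P := by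
  unfold Gh
  rw [closure_le]
  rintro g (rfl | rfl | rfl)
  · exact ⟨Δ.gen_mem_UU _, _, Δ.gen_lead _⟩
  · exact ⟨Δ.gen_mem_UU _, _, Δ.gen_lead _⟩
  · exact ⟨Δ.zz_mem_UU _ _, _, Δ.zz_lead _ _⟩

theorem Gh_le_UU : Δ.Gh ≤ Δ.UU := fun _ hg => (Δ.Gh_le_P hg).1

theorem UU_V0 {g : R₁ˣ × R₂ˣ} (hg : g ∈ Δ.UU) : g.2 ∈ Δ.J.V 0 := by
  have h := Δ.Φ₂.V_anti (Nat.zero_le 1) (Δ.mem_UU.1 hg).2
  exact ⟨Δ.hΦJ _ h.1, Δ.hΦJ _ h.2⟩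

theorem gens_form {g : R₁ˣ × R₂ˣ} (hg : g ∈ Δ.gens) :
    ∃ (p : ℤ × ℤ) (c : ℤ), (g.2 : R₂) = 1 + Δ.χ₂ p + c • Δ.E₂ := by
  rcases hg with rfl | rfl | rfl
  · exact ⟨_, 0, by rw [gen_snd, zero_smul, add_zero]⟩
  · exact ⟨_, 0, by rw [gen_snd, zero_smul, add_zero]⟩
  · exact ⟨0, -1, by rw [zz_snd, map_zero, add_zero]⟩

theorem E₂_mul {a : R₂} (ha : a ∈ Δ.Φ₂.F 1) : Δ.E₂ * a = 0 := by
  have := Δ.Φ₂.mul_mem Δ.hE₂ ha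
  rwa [Δ.h11, AddSubgroup.mem_bot] at this

theorem mul_E₂ {a : R₂} (ha : a ∈ Δ.Φ₂.F 1) : a * Δ.E₂ = 0 := by
  have := Δ.Φ₂.mul_mem ha Δ.hE₂
  rwa [Δ.h11, AddSubgroup.mem_bot] at this

theorem E₁_mul {a : R₁} (ha : a ∈ Δ.Φ₁.F 1) : Δ.E₁ * a = 0 := by
  have := Δ.Φ₁.mul_mem Δ.hE₁ ha
  rwa [Δ.h9, AddSubgroup.mem_bot] at this

theorem mul_E₁ {a : R₁} (ha : a ∈ Δ.Φ₁.F 1) : a * Δ.E₁ = 0 := by
  have := Δ.Φ₁.mul_mem ha Δ.hE₁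
  rwa [Δ.h9, AddSubgroup.mem_bot] at this

theorem Gh_comm {g h : R₁ˣ × R₂ˣ} (hg : g ∈ Δ.Gh) (hh : h ∈ Δ.Gh) :
    (g.2 : R₂) * h.2 - h.2 * g.2 ∈ Δ.J.F 1 := by
  unfold Gh at hg hh
  induction hg, hh using closure_induction₂ with
  | mem x y hx hy =>
    obtain ⟨p, c, hp⟩ := Δ.gens_form hx
    obtain ⟨q, d, hq⟩ := Δ.gens_form hy
    rw [hp, hq]
    have e : ∀ a b s t : R₂, (1 + a + s) * (1 + b + t) - (1 + b + t) * (1 + a + s)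
        = (a * b - b * a) + a * t - t * a + s * b - b * s + s * t - t * s := by
      intro a b s t; noncomm_ring
    rw [e, smul_sq Δ.E₂_sq, smul_sq Δ.E₂_sq]
    simp only [smul_mul_assoc, mul_smul_comm]
    rw [Δ.E₂_mul (Δ.hχ₂ q), Δ.mul_E₂ (Δ.hχ₂ p), Δ.E₂_mul (Δ.hχ₂ p), Δ.mul_E₂ (Δ.hχ₂ q)]
    simpa using Δ.hcomm p q
  | one_left x hx => simp [zero_mem]
  | one_right x hx => simp [zero_mem]
  | mul_left x y z hx hy hz h1 h2 =>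
    have hx0 := Δ.J.coe_mem_zero (Δ.UU_V0 (Δ.Gh_le_UU hx))
    have hy0 := Δ.J.coe_mem_zero (Δ.UU_V0 (Δ.Gh_le_UU hy))
    have e : ((x * y).2 : R₂) * z.2 - z.2 * (x * y).2
        = (x.2 : R₂) * ((y.2 : R₂) * z.2 - z.2 * y.2) + ((x.2 : R₂) * z.2 - z.2 * x.2) * y.2 := by
      simp only [Prod.snd_mul, Units.val_mul]; noncomm_ring
    rw [e]
    exact add_mem (Δ.J.mul_mem_of_le hx0 h2 (by omega)) (Δ.J.mul_mem h1 hy0)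
  | mul_right x y z hx hy hz h1 h2 =>
    have hx0 := Δ.J.coe_mem_zero (Δ.UU_V0 (Δ.Gh_le_UU hx))
    have hy0 := Δ.J.coe_mem_zero (Δ.UU_V0 (Δ.Gh_le_UU hy))
    have e : (z.2 : R₂) * (x * y).2 - (x * y).2 * z.2
        = ((z.2 : R₂) * x.2 - x.2 * z.2) * y.2 + (x.2 : R₂) * ((z.2 : R₂) * y.2 - y.2 * z.2) := by
      simp only [Prod.snd_mul, Units.val_mul]; noncomm_ring
    rw [e]
    exact add_mem (Δ.J.mul_mem h1 hy0) (Δ.J.mul_mem_of_le hx0 h2 (by omega))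
  | inv_left x y hx hy h1 =>
    have hx0 := Δ.J.coe_inv_mem_zero (Δ.UU_V0 (Δ.Gh_le_UU hx))
    have e : ((x⁻¹).2 : R₂) * y.2 - y.2 * (x⁻¹).2
        = -(((x.2⁻¹ : R₂ˣ) : R₂) * ((x.2 : R₂) * y.2 - y.2 * x.2) * ((x.2⁻¹ : R₂ˣ) : R₂)) := by
      rw [Prod.snd_inv, mul_sub, ← mul_assoc, Units.inv_mul, one_mul, sub_mul,
        mul_assoc _ _ ((x.2⁻¹ : R₂ˣ) : R₂), mul_assoc (y.2 : R₂), Units.mul_inv, mul_one]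
      abel
    rw [e]
    exact neg_mem (Δ.J.mul_mem (Δ.J.mul_mem_of_le hx0 h1 (by omega)) hx0)
  | inv_right x y hx hy h1 =>
    have hy0 := Δ.J.coe_inv_mem_zero (Δ.UU_V0 (Δ.Gh_le_UU hy))
    have e : (x.2 : R₂) * (y⁻¹).2 - (y⁻¹).2 * x.2
        = -(((y.2⁻¹ : R₂ˣ) : R₂) * ((x.2 : R₂) * y.2 - y.2 * x.2) * ((y.2⁻¹ : R₂ˣ) : R₂)) := by
      rw [Prod.snd_inv, mul_sub, sub_mul, ← mul_assoc, mul_assoc (((y.2⁻¹ : R₂ˣ) : R₂) * (x.2 : R₂)),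
        Units.mul_inv, mul_one, ← mul_assoc ((y.2⁻¹ : R₂ˣ) : R₂) (y.2 : R₂), Units.inv_mul, one_mul]
      abel
    rw [e]
    exact neg_mem (Δ.J.mul_mem (Δ.J.mul_mem_of_le hy0 h1 (by omega)) hy0)

end Data

end Pool.Agent.H.MP_7a18c0_al
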