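import Pool.Agent.H.MP_7a18c0_al.Main

set_option autoImplicit false

namespace Pool.Agent.H.MP_7a18c0_al

open Subgroup
open scoped commutatorElement

theorem getD_mem_of_ne {A : AddSubgroup (ℤ × ℤ)} (L₁ L₂ : List (ℤ × ℤ)) (u : ℤ × ℤ)
    (h₁ : ∀ a ∈ L₁, a ∈ A) (h₂ : ∀ a ∈ L₂, a ∈ A) (i : ℕ) (hi : i < L₁.length + L₂.length + 1)
    (hne : i ≠ L₁.length) : (L₁ ++ u :: L₂).getD i 0 ∈ A := by
  rcases lt_or_gt_of_ne hne with h | h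
  · rw [List.getD_append _ _ _ _ h, List.getD_eq_getElem _ _ h]
    exact h₁ _ (List.getElem_mem h)
  · rw [List.getD_append_right _ _ _ _ h.le]
    obtain ⟨m, rfl⟩ : ∃ m, i = L₁.length + (m + 1) := ⟨i - L₁.length - 1, by omega⟩
    rw [Nat.add_sub_cancel_left, List.getD_cons_succ]
    have hm : m < L₂.length := by omega
    rw [List.getD_eq_getElem _ _ hm]
    exact h₂ _ (List.getElem_mem hm)

namespace Data

variable {R₁ R₂ : Type} [Ring R₁] [Ring R₂] (Δ : Data R₁ R₂)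

/-- linear parts of the elements of `H` -/
def Hbar (H : Subgroup (R₁ˣ × R₂ˣ)) : AddSubgroup (ℤ × ℤ) where
  carrier := {p | ∃ h ∈ H, h ∈ Δ.UU ∧ Δ.Lead p h}
  zero_mem' := ⟨1, one_mem _, one_mem _, Δ.lead_one⟩
  add_mem' := by
    rintro p q ⟨g, hg, hgu, hp⟩ ⟨h, hh, hhu, hq⟩
    exact ⟨g * h, mul_mem hg hh, mul_mem hgu hhu, Δ.lead_mul hgu hhu hp hq⟩
  neg_mem' := by
    rintro p ⟨g, hg, hgu, hp⟩
    exact ⟨g⁻¹, inv_mem hg, inv_mem hgu, Δ.lead_inv hgu hp⟩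

/-- additive group of products with at most one factor outside `A` -/
def Lam (A : AddSubgroup (ℤ × ℤ)) (k : ℕ) : AddSubgroup R₂ :=
  AddSubgroup.closure {w | ∃ (L₁ L₂ : List (ℤ × ℤ)) (u : ℤ × ℤ), (∀ a ∈ L₁, a ∈ A) ∧
    (∀ a ∈ L₂, a ∈ A) ∧ L₁.length + L₂.length = k ∧ w = ((L₁ ++ u :: L₂).map Δ.χ₂).prod}

theorem Lam_br {A : AddSubgroup (ℤ × ℤ)} {k : ℕ} {l : R₂} (hl : l ∈ Δ.Lam A k) {m : ℤ × ℤ}
    (hm : m ∈ A) : l * Δ.χ₂ m - Δ.χ₂ m * l ∈ Δ.Lam A (k + 1) := by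
  unfold Lam at hl
  induction hl using AddSubgroup.closure_induction with
  | mem w hw =>
    obtain ⟨L₁, L₂, u, h1, h2, h3, rfl⟩ := hw
    apply sub_mem
    · apply AddSubgroup.subset_closure
      refine ⟨L₁, L₂ ++ [m], u, h1, ?_, ?_, ?_⟩
      · intro a ha
        rw [List.mem_append, List.mem_singleton] at ha
        rcases ha with ha | rfl
        · exact h2 a ha
        · exact hm
      · simp; omega
      · simp [mul_assoc]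
    · apply AddSubgroup.subset_closure
      refine ⟨m :: L₁, L₂, u, ?_, h2, ?_, ?_⟩
      · intro a ha
        rw [List.mem_cons] at ha
        rcases ha with rfl | ha
        · exact hm
        · exact h1 a ha
      · simp; omega
      · simp [mul_assoc]
  | zero => simp [zero_mem]
  | add x y hx hy h1 h2 =>
    have e : (x + y) * Δ.χ₂ m - Δ.χ₂ m * (x + y)
        = (x * Δ.χ₂ m - Δ.χ₂ m * x) + (y * Δ.χ₂ m - Δ.χ₂ m * y) := by noncomm_ring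
    rw [e]; exact add_mem h1 h2
  | neg x hx h1 =>
    have e : (-x) * Δ.χ₂ m - Δ.χ₂ m * (-x) = -(x * Δ.χ₂ m - Δ.χ₂ m * x) := by noncomm_ring
    rw [e]; exact neg_mem h1

theorem Lam_nine {A : AddSubgroup (ℤ × ℤ)} {D : ℤ} (hD : ∀ u ∈ A, ∀ v ∈ A, D ∣ om u v) {l : R₂}
    (hl : l ∈ Δ.Lam A 9) : ∃ t : ℤ, D ^ 4 ∣ t ∧ l = t • Δ.E₂ := by
  unfold Lam at hl
  induction hl using AddSubgroup.closure_induction with
  | mem w hw =>
    obtain ⟨L₁, L₂, u, h1, h2, h3, rfl⟩ := hw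
    refine ⟨_, ?_, Δ.hprod (L₁ ++ u :: L₂) (by simp; omega)⟩
    apply psi_dvd D _ L₁.length (by omega)
    intro i j hi hj hi' hj'
    exact hD _ (getD_mem_of_ne L₁ L₂ u h1 h2 i (by omega) hi') _
      (getD_mem_of_ne L₁ L₂ u h1 h2 j (by omega) hj')
  | zero => exact ⟨0, dvd_zero _, by simp⟩
  | add x y hx hy h1 h2 =>
    obtain ⟨s, hs, rfl⟩ := h1
    obtain ⟨t, ht, rfl⟩ := h2
    exact ⟨s + t, dvd_add hs ht, by rw [add_smul]⟩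
  | neg x hx h1 =>
    obtain ⟨s, hs, rfl⟩ := h1
    exact ⟨-s, (dvd_neg).2 hs, by rw [neg_smul]⟩

/-- the subgroups bounding the iterated commutators -/
def Q (A : AddSubgroup (ℤ × ℤ)) (k : ℕ) : Subgroup (R₁ˣ × R₂ˣ) :=
  (Δ.Φ₁.V (k + 1)).prod (Δ.Φ₂.VL (k + 1) (by omega) (Δ.Lam A k))

theorem fst_comm (g h : R₁ˣ × R₂ˣ) : (⁅g, h⁆).1 = ⁅g.1, h.1⁆ := rfl

theorem snd_comm (g h : R₁ˣ × R₂ˣ) : (⁅g, h⁆).2 = ⁅g.2, h.2⁆ := rfl

theorem itc_le {H : Subgroup (R₁ˣ × R₂ˣ)} (hH : H ≤ Δ.Gh) (k : ℕ) :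
    itc Δ.Gh H k ≤ Δ.Q (Δ.Hbar H) k := by
  induction k with
  | zero =>
    intro g hg
    obtain ⟨hu, p, hp⟩ := Δ.Gh_le_P hg
    rw [mem_UU] at hu
    refine Subgroup.mem_prod.2 ⟨hu.1, hu.2, Δ.χ₂ p, ?_, hp.2⟩
    apply AddSubgroup.subset_closure
    exact ⟨[], [], p, by simp, by simp, rfl, by simp⟩
  | succ k ih =>
    simp only [itc]
    rw [commutator_le]
    intro g hg h hh
    obtain ⟨hg1, hg2, l, hl, hgl⟩ := Subgroup.mem_prod.1 (ih hg)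
    obtain ⟨hu, p, hp⟩ := Δ.Gh_le_P (hH hh)
    have hu' := Δ.mem_UU.1 hu
    have hpA : p ∈ Δ.Hbar H := ⟨h, hh, hu, hp⟩
    refine Subgroup.mem_prod.2 ⟨?_, ?_, l * Δ.χ₂ p - Δ.χ₂ p * l, Δ.Lam_br hl hpA, ?_⟩
    · exact Δ.Φ₁.comm_mem hg1 hu'.1
    · exact Δ.Φ₂.comm_mem hg2 hu'.2
    · exact Δ.Φ₂.comm_lead (by omega) le_rfl hg2 hu'.2 hgl hp.2

theorem χ₁_eq (p : ℤ × ℤ) : Δ.χ₁ p = p.1 • Δ.χ₁ (1, 0) + p.2 • Δ.χ₁ (0, 1) := by
  rw [← map_zsmul, ← map_zsmul, ← map_add]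
  congr 1
  ext <;> simp

theorem mem_vw {H : Subgroup (R₁ˣ × R₂ˣ)} {g h : R₁ˣ × R₂ˣ} (hg : g ∈ H) (hh : h ∈ H) :
    vw g h ∈ H := by
  have c : ∀ {a b : R₁ˣ × R₂ˣ}, a ∈ H → b ∈ H → ⁅a, b⁆ ∈ H := by
    intro a b ha hb
    rw [commutatorElement_def]
    exact mul_mem (mul_mem (mul_mem ha hb) (inv_mem ha)) (inv_mem hb)
  exact c (c hg hh) (c (c (c hg hh) hg) (c (c hg hh) hh))

theorem vw_eq {g h : R₁ˣ × R₂ˣ} (hg : g ∈ Δ.Gh) (hh : h ∈ Δ.Gh) {p q : ℤ × ℤ}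
    (hp : Δ.Lead p g) (hq : Δ.Lead q h) : vw g h = Δ.zz ((om p q) ^ 4) 0 := by
  have hgu := Δ.mem_UU.1 (Δ.Gh_le_UU hg)
  have hhu := Δ.mem_UU.1 (Δ.Gh_le_UU hh)
  apply Prod.ext
  · have h1 := (vw_lead Δ.Φ₁ hgu.1 hhu.1 hp.1 hq.1).1
    rw [Δ.h9, AddSubgroup.mem_bot, Δ.χ₁_eq p, Δ.χ₁_eq q, v8_comb, Δ.hv, sub_eq_zero] at h1
    apply Units.ext
    rw [zz_fst]
    change ((vw g.1 h.1 : R₁ˣ) : R₁) = _
    rw [om, ← h1]; abel
  · have h1 : vw g.2 h.2 ∈ Δ.J.V 3 :=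
      vw_deep Δ.J (Δ.UU_V0 (Δ.Gh_le_UU hg)) (Δ.UU_V0 (Δ.Gh_le_UU hh)) (Δ.Gh_comm hg hh)
    have h2 := Δ.J.eq_one_of_mem_V Δ.hJ h1
    change vw g.2 h.2 = _
    rw [h2]
    apply Units.ext
    rw [zz_snd]
    simp

/-- the key step -/
theorem key {H : Subgroup (R₁ˣ × R₂ˣ)} (hH : H ≤ Δ.Gh) (hz : Δ.zz 1 (-1) ∈ H) :
    itc Δ.Gh H 9 ≤ H := by
  obtain ⟨p, hp, q, hq, hmin⟩ := exists_min_pair (Δ.Hbar H)
  obtain ⟨g, hg, hgu, hpg⟩ := hp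
  obtain ⟨h, hh, hhu, hqh⟩ := hq
  set D := om p q with hD
  have h1 : Δ.zz (D ^ 4) 0 ∈ H := by
    rw [hD, ← Δ.vw_eq (hH hg) (hH hh) hpg hqh]
    exact mem_vw hg hh
  have h2 : Δ.zz (D ^ 4) (-(D ^ 4)) ∈ H := by
    have := H.zpow_mem hz (D ^ 4)
    rwa [zz_zpow, mul_one, mul_neg, mul_one] at this
  have h3 : Δ.zz 0 (D ^ 4) ∈ H := by
    have e : Δ.zz 0 (D ^ 4) = (Δ.zz (D ^ 4) (-(D ^ 4)))⁻¹ * Δ.zz (D ^ 4) 0 := by
      rw [eq_inv_mul_iff_mul_eq, zz_mul]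
      congr 1 <;> ring
    rw [e]
    exact mul_mem (inv_mem h2) h1
  intro x hx
  obtain ⟨hx1, hx2, l, hl, hxl⟩ := Subgroup.mem_prod.1 (Δ.itc_le hH 9 hx)
  obtain ⟨t, ⟨m, rfl⟩, rfl⟩ := Δ.Lam_nine hmin hl
  rw [Δ.h11, AddSubgroup.mem_bot, sub_eq_zero] at hxl
  have hx1' : x.1 = 1 := Δ.Φ₁.eq_one_of_mem_V Δ.h9 (Δ.Φ₁.V_anti (by norm_num) hx1)
  have ex : x = Δ.zz 0 (m * D ^ 4) := by
    apply Prod.ext
    · rw [hx1']
      apply Units.ext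
      rw [zz_fst]; simp
    · apply Units.ext
      rw [zz_snd, mul_comm m, ← hxl]; abel
  rw [ex]
  have := H.zpow_mem h3 m
  rwa [zz_zpow, mul_zero] at this

/-- roots of central elements -/
theorem root {g : R₁ˣ × R₂ˣ} (hg : g ∈ Δ.UU) {k : ℕ} (hk : 0 < k) {c : ℤ}
    (h : g ^ k = Δ.zz c (-c)) : ∃ s : ℤ, g = Δ.zz s (-s) := by
  have hgu := Δ.mem_UU.1 hg
  have h1 : (g.1 : R₁) ^ k = 1 + c • Δ.E₁ := by
    rw [← zz_fst Δ c (-c), ← h]; simp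
  have h2 : (g.2 : R₂) ^ k = 1 + (-c) • Δ.E₂ := by
    rw [← zz_snd Δ c (-c), ← h]; simp
  have d1 : (g.1 : R₁) - 1 ∈ Δ.Φ₁.F 8 := by
    apply Δ.Φ₁.deep_of_pow_deep Δ.pure₁ hgu.1.1 hk (by norm_num)
    rw [h1, add_sub_cancel_left]
    exact (Δ.Φ₁.F 8).zsmul_mem Δ.hE₁ c
  have d2 : (g.2 : R₂) - 1 ∈ Δ.Φ₂.F 10 := by
    apply Δ.Φ₂.deep_of_pow_deep Δ.pure₂ hgu.2.1 hk (by norm_num)
    rw [h2, add_sub_cancel_left]
    exact (Δ.Φ₂.F 10).zsmul_mem Δ.hE₂ _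
  have e1 : k • ((g.1 : R₁) - 1) = c • Δ.E₁ := by
    have := Δ.Φ₁.anti (show 9 ≤ 2 * 8 by norm_num) (Δ.Φ₁.pow_sub d1 k)
    rw [Δ.h9, AddSubgroup.mem_bot, h1, add_sub_cancel_left, sub_eq_zero] at this
    exact this.symm
  have e2 : k • ((g.2 : R₂) - 1) = (-c) • Δ.E₂ := by
    have := Δ.Φ₂.anti (show 11 ≤ 2 * 10 by norm_num) (Δ.Φ₂.pow_sub d2 k)
    rw [Δ.h11, AddSubgroup.mem_bot, h2, add_sub_cancel_left, sub_eq_zero] at this
    exact this.symm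
  obtain ⟨s, rfl⟩ := Δ.prim k c _ hk e1
  refine ⟨s, Prod.ext (Units.ext ?_) (Units.ext ?_)⟩
  · rw [zz_fst]
    have h0 : k • ((g.1 : R₁) - 1 - s • Δ.E₁) = 0 := by
      rw [smul_sub, e1, mul_smul, sub_eq_zero, natCast_zsmul]
    have h0' : (g.1 : R₁) - 1 - s • Δ.E₁ ∈ Δ.Φ₁.F 9 :=
      Δ.pure₁ 9 k _ hk (by rw [h0]; exact zero_mem _)
    rw [Δ.h9, AddSubgroup.mem_bot, sub_eq_zero] at h0'
    rw [← h0']; abel
  · rw [zz_snd]
    have h0 : k • ((g.2 : R₂) - 1 - (-s) • Δ.E₂) = 0 := by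
      rw [smul_sub, e2, sub_eq_zero, ← natCast_zsmul, smul_smul]
      congr 1; ring
    have h0' : (g.2 : R₂) - 1 - (-s) • Δ.E₂ ∈ Δ.Φ₂.F 11 :=
      Δ.pure₂ 11 k _ hk (by rw [h0]; exact zero_mem _)
    rw [Δ.h11, AddSubgroup.mem_bot, sub_eq_zero] at h0'
    rw [← h0']; abel

/-- `zz` is central -/
theorem zz_central {g : R₁ˣ × R₂ˣ} (hg : g ∈ Δ.UU) (a b : ℤ) : g * Δ.zz a b = Δ.zz a b * g := by
  have hgu := Δ.mem_UU.1 hg
  apply Prod.ext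
  · apply Units.ext
    simp only [Prod.fst_mul, Units.val_mul, zz_fst, mul_add, add_mul, mul_one, one_mul,
      mul_smul_comm, smul_mul_assoc]
    congr 2
    have h1 := Δ.mul_E₁ hgu.1.1
    have h2 := Δ.E₁_mul hgu.1.1
    rw [sub_mul, one_mul, sub_eq_zero] at h1
    rw [mul_sub, mul_one, sub_eq_zero] at h2
    rw [h1, h2]
  · apply Units.ext
    simp only [Prod.snd_mul, Units.val_mul, zz_snd, mul_add, add_mul, mul_one, one_mul,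
      mul_smul_comm, smul_mul_assoc]
    congr 2
    have h1 := Δ.mul_E₂ hgu.2.1
    have h2 := Δ.E₂_mul hgu.2.1
    rw [sub_mul, one_mul, sub_eq_zero] at h1
    rw [mul_sub, mul_one, sub_eq_zero] at h2
    rw [h1, h2]

/-- leading terms of iterated commutators -/
theorem lcm_lead {R : Type} [Ring R] (Φ : Filt R) (χ : ℤ × ℤ → R) (γ : ℤ × ℤ → Rˣ)
    (hγ : ∀ p, γ p ∈ Φ.V 1) (hγl : ∀ p, (γ p : R) - 1 - χ p ∈ Φ.F 2) (w : List (ℤ × ℤ)) :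
    ∀ (i : ℕ) (_ : 1 ≤ i) (g : Rˣ) (_ : g ∈ Φ.V i) (l : R) (_ : (g : R) - 1 - l ∈ Φ.F (i + 1)),
      lcm g (w.map γ) ∈ Φ.V (i + w.length) ∧
      ((lcm g (w.map γ) : Rˣ) : R) - 1 - lbr l (w.map χ) ∈ Φ.F (i + w.length + 1) := by
  induction w with
  | nil => intro i hi g hg l hl; exact ⟨hg, hl⟩
  | cons p w ih =>
    intro i hi g hg l hl
    have h1 := Φ.comm_mem hg (hγ p)
    have h2 := Φ.comm_lead hi le_rfl hg (hγ p) hl (hγl p)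
    have := ih (i + 1) (by omega) _ h1 _ h2
    have e : i + 1 + w.length = i + (p :: w).length := by simp; omega
    rw [e] at this
    exact this

end Data

theorem lcm_mem_ucs {G : Type*} [Group G] (l : List G) :
    ∀ (n : ℕ) (g : G), g ∈ Subgroup.upperCentralSeries G (n + l.length) →
      lcm g l ∈ Subgroup.upperCentralSeries G n := by
  induction l with
  | nil => intro n g hg; exact hg
  | cons a l ih =>
    intro n g hg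
    apply ih
    rw [List.length_cons, ← add_assoc, Subgroup.mem_upperCentralSeries_succ_iff] at hg
    exact hg a

theorem map_lcm {G G' : Type*} [Group G] [Group G'] (f : G →* G') (l : List G) :
    ∀ g : G, f (lcm g l) = lcm (f g) (l.map f) := by
  induction l with
  | nil => intro g; rfl
  | cons a l ih =>
    intro g
    change f (lcm ⁅g, a⁆ l) = lcm ⁅f g, f a⁆ (l.map f)
    rw [ih, map_commutatorElement]

namespace Data

variable {R₁ R₂ : Type} [Ring R₁] [Ring R₂] (Δ : Data R₁ R₂)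

/-- the nonvanishing commutator -/
noncomputable def c10 : R₁ˣ × R₂ˣ := lcm (Δ.gen (1, 0)) (word9.map Δ.gen)

theorem c10_fst : Δ.c10.1 = 1 := by
  have e : Δ.c10.1 = lcm (Δ.gen (1, 0)).1 (word9.map (fun p => (Δ.gen p).1)) := by
    rw [c10]
    have := map_lcm (MonoidHom.fst R₁ˣ R₂ˣ) (word9.map Δ.gen) (Δ.gen (1, 0))
    rw [List.map_map] at this
    exact this
  rw [e]
  have h := (lcm_lead Δ.Φ₁ Δ.χ₁ (fun p => (Δ.gen p).1) (fun p => (Δ.mem_UU.1 (Δ.gen_mem_UU p)).1)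
    (fun p => (Δ.gen_lead p).1) word9 1 le_rfl _ (Δ.mem_UU.1 (Δ.gen_mem_UU (1, 0))).1 _
    (Δ.gen_lead (1, 0)).1).1
  exact Δ.Φ₁.eq_one_of_mem_V Δ.h9 (Δ.Φ₁.V_anti (by simp [word9]) h)

theorem c10_snd : Δ.c10.2 ≠ 1 := by
  have e : Δ.c10.2 = lcm (Δ.gen (1, 0)).2 (word9.map (fun p => (Δ.gen p).2)) := by
    rw [c10]
    have := map_lcm (MonoidHom.snd R₁ˣ R₂ˣ) (word9.map Δ.gen) (Δ.gen (1, 0))
    rw [List.map_map] at this
    exact this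
  have h := (lcm_lead Δ.Φ₂ Δ.χ₂ (fun p => (Δ.gen p).2) (fun p => (Δ.mem_UU.1 (Δ.gen_mem_UU p)).2)
    (fun p => (Δ.gen_lead p).2) word9 1 le_rfl _ (Δ.mem_UU.1 (Δ.gen_mem_UU (1, 0))).2 _
    (Δ.gen_lead (1, 0)).2).2
  rw [← e] at h
  intro h1
  rw [h1] at h
  have h' : (((1 : R₂ˣ) : R₂) - 1 - lbr (Δ.χ₂ (1, 0)) (word9.map Δ.χ₂)) ∈ Δ.Φ₂.F 11 := h
  rw [Δ.h11, AddSubgroup.mem_bot, Units.val_one, sub_self, zero_sub, neg_eq_zero] at h'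
  exact Δ.hnz h'

theorem gen_mem_Gh (p : ℤ × ℤ) (hp : p = (1, 0) ∨ p = (0, 1)) : Δ.gen p ∈ Δ.Gh := by
  apply Subgroup.subset_closure
  rcases hp with rfl | rfl
  · left; rfl
  · right; left; rfl

theorem zz_mem_Gh : Δ.zz 1 (-1) ∈ Δ.Gh := by
  apply Subgroup.subset_closure
  right; right; rfl

/-- the central subgroup -/
def N : Subgroup Δ.Gh := (zpowers (Δ.zz 1 (-1))).subgroupOf Δ.Gh

theorem mem_N {g : Δ.Gh} : g ∈ Δ.N ↔ ∃ k : ℤ, Δ.zz k (-k) = (g : R₁ˣ × R₂ˣ) := by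
  unfold N
  rw [mem_subgroupOf, mem_zpowers_iff]
  constructor
  · rintro ⟨k, hk⟩
    refine ⟨k, ?_⟩
    rw [← hk, zz_zpow, mul_one, mul_neg, mul_one]
  · rintro ⟨k, hk⟩
    refine ⟨k, ?_⟩
    rw [← hk, zz_zpow, mul_one, mul_neg, mul_one]

instance N_normal : Δ.N.Normal where
  conj_mem := by
    intro n hn g
    rw [mem_N] at hn ⊢
    obtain ⟨k, hk⟩ := hn
    refine ⟨k, ?_⟩
    rw [coe_mul, coe_mul, ← hk, Δ.zz_central (Δ.Gh_le_UU g.2), coe_inv, mul_inv_cancel_right]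

include Δ in
theorem final : ∃ (G : Type) (_ : Group G),
    (∀ g : G, ∀ k : ℕ, 0 < k → g ^ k = 1 → g = 1) ∧
    (∀ H : Subgroup G, ∃ f : ℕ → Subgroup G, f 0 = H ∧ f 9 = ⊤ ∧
        ∀ i, i < 9 → f i ≤ f (i + 1) ∧ ((f i).subgroupOf (f (i + 1))).Normal) ∧
    Subgroup.upperCentralSeries G 9 ≠ ⊤ := by
  refine ⟨Δ.Gh ⧸ Δ.N, inferInstance, ?_, ?_, ?_⟩
  · intro g k hk h
    induction g using QuotientGroup.induction_on with
    | H g =>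
      rw [← QuotientGroup.mk_pow, QuotientGroup.eq_one_iff, mem_N] at h
      obtain ⟨c, hc⟩ := h
      obtain ⟨s, hs⟩ := Δ.root (Δ.Gh_le_UU g.2) hk (c := c) (by rw [hc]; simp)
      rw [QuotientGroup.eq_one_iff, mem_N]
      exact ⟨s, hs.symm⟩
  · intro H
    apply chain_of_itc
    set π := QuotientGroup.mk' Δ.N with hπ
    have hs : Function.Surjective π := QuotientGroup.mk'_surjective _
    set K := H.comap π with hK
    have h1 : itc (⊤ : Subgroup Δ.Gh) K 9 ≤ K := by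
      have h2 : K.map Δ.Gh.subtype ≤ Δ.Gh := by
        rintro x ⟨y, _, rfl⟩
        exact y.2
      have h3 : Δ.zz 1 (-1) ∈ K.map Δ.Gh.subtype := by
        refine ⟨⟨_, Δ.zz_mem_Gh⟩, ?_, rfl⟩
        change π _ ∈ H
        have : π ⟨_, Δ.zz_mem_Gh⟩ = 1 := by
          rw [hπ, QuotientGroup.mk'_apply, QuotientGroup.eq_one_iff, mem_N]
          exact ⟨1, rfl⟩
        rw [this]
        exact one_mem _
      have h4 := Δ.key h2 h3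
      rw [← map_subtype_le_map_subtype, map_itc]
      have h5 : (⊤ : Subgroup Δ.Gh).map Δ.Gh.subtype = Δ.Gh := by
        rw [← MonoidHom.range_eq_map, range_subtype]
      rw [h5]
      exact h4
    have h6 := Subgroup.map_mono (f := π) h1
    rw [map_itc, map_top_of_surjective _ hs, map_comap_eq_self_of_surjective hs] at h6
    exact h6
  · intro htop
    have hx : Δ.gen (1, 0) ∈ Δ.Gh := Δ.gen_mem_Gh _ (Or.inl rfl)
    have hy : Δ.gen (0, 1) ∈ Δ.Gh := Δ.gen_mem_Gh _ (Or.inr rfl)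
    let x : Δ.Gh := ⟨_, hx⟩
    let y : Δ.Gh := ⟨_, hy⟩
    let w : List Δ.Gh := [y, x, x, x, x, y, y, y, y]
    set π := QuotientGroup.mk' Δ.N with hπ
    have h1 : lcm (π x) (w.map π) ∈ Subgroup.upperCentralSeries (Δ.Gh ⧸ Δ.N) 0 := by
      apply lcm_mem_ucs
      have : (0 + (w.map π).length) = 9 := rfl
      rw [this, htop]
      exact mem_top _
    rw [Subgroup.upperCentralSeries_zero, mem_bot, ← map_lcm, hπ, QuotientGroup.mk'_apply,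
      QuotientGroup.eq_one_iff, mem_N] at h1
    obtain ⟨k, hk⟩ := h1
    have h2 : ((lcm x w : Δ.Gh) : R₁ˣ × R₂ˣ) = Δ.c10 := by
      have := map_lcm Δ.Gh.subtype w x
      rw [coe_subtype] at this
      rw [this]
      rfl
    rw [h2] at hk
    have h3 : (Δ.zz k (-k)).1 = 1 := by rw [hk]; exact Δ.c10_fst
    have h4 : k = 0 := by
      apply Δ.hE₁0
      have h5 : ((Δ.zz k (-k)).1 : R₁) = 1 := by rw [h3]; rfl
      rw [zz_fst] at h5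
      simpa using h5
    subst h4
    apply Δ.c10_snd
    rw [← hk]
    apply Units.ext
    rw [zz_snd]
    simp

end Data

end Pool.Agent.H.MP_7a18c0_al
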