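import Pool.Agent.H.MP_7a18c0_al.Filt

set_option autoImplicit false

namespace Pool.Agent.H.MP_7a18c0_al

/-- filtration of a matrix ring by a degree function on indices -/
def matFilt (n : ℕ) (S : Type*) [Ring S] (d : Fin n → ℕ) : Filt (Matrix (Fin n) (Fin n) S) where
  F k :=
    { carrier := {M | ∀ i j, d j < d i + k → M i j = 0}
      zero_mem' := fun _ _ _ => rfl
      add_mem' := by
        intro a b ha hb i j h
        rw [Matrix.add_apply, ha i j h, hb i j h, add_zero]
      neg_mem' := by
        intro a ha i j h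
        rw [Matrix.neg_apply, ha i j h, neg_zero] }
  one_mem := by
    intro i j h
    rw [Matrix.one_apply_ne]
    rintro rfl
    omega
  mul_mem := by
    intro a b M N hM hN i j h
    rw [Matrix.mul_apply]
    apply Finset.sum_eq_zero
    intro k _
    by_cases hk : d k < d i + a
    · rw [hM i k hk, zero_mul]
    · rw [hN k j (by omega), mul_zero]
  anti := by
    intro i j hij M hM a b h
    exact hM a b (by omega)

theorem mem_matFilt {n : ℕ} {S : Type*} [Ring S] {d : Fin n → ℕ} {k : ℕ}
    {M : Matrix (Fin n) (Fin n) S} :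
    M ∈ (matFilt n S d).F k ↔ ∀ i j, d j < d i + k → M i j = 0 := Iff.rfl

theorem matFilt_bot {n : ℕ} {S : Type*} [Ring S] {d : Fin n → ℕ} {k : ℕ}
    (h : ∀ i j, d j < d i + k) : (matFilt n S d).F k = ⊥ := by
  rw [eq_bot_iff]
  intro M hM
  rw [AddSubgroup.mem_bot]
  ext i j
  exact hM i j (h i j)

theorem matFilt_pure {n : ℕ} {S : Type*} [Ring S] (hS : ∀ (k : ℕ) (a : S), 0 < k → k • a = 0 → a = 0)
    {d : Fin n → ℕ} (i : ℕ) (k : ℕ) (M : Matrix (Fin n) (Fin n) S) (hk : 0 < k)
    (h : k • M ∈ (matFilt n S d).F i) : M ∈ (matFilt n S d).F i := by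
  intro a b hab
  have := h a b hab
  rw [Matrix.smul_apply] at this
  exact hS k _ hk this

/-- homogeneous matrices of degree `k` -/
def hom {S : Type*} [Ring S] (n k : ℕ) (A : ℕ → S) : Matrix (Fin n) (Fin n) S :=
  Matrix.of fun i j => if (j : ℕ) = i + k then A i else 0

theorem hom_apply {S : Type*} [Ring S] (n k : ℕ) (A : ℕ → S) (i j : Fin n) :
    hom n k A i j = if (j : ℕ) = i + k then A i else 0 := rfl

theorem hom_mul {S : Type*} [Ring S] (n k l : ℕ) (A B : ℕ → S) :
    hom n k A * hom n l B = hom n (k + l) (fun i => A i * B (i + k)) := by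
  ext i j
  rw [Matrix.mul_apply, hom_apply]
  simp only [hom_apply]
  by_cases h : (j : ℕ) = i + (k + l)
  · rw [if_pos h]
    have hm : (i : ℕ) + k < n := by omega
    rw [Finset.sum_eq_single (⟨(i : ℕ) + k, hm⟩ : Fin n)]
    · rw [if_pos rfl, if_pos]
      simp only
      omega
    · intro b _ hb
      rw [if_neg, zero_mul]
      intro hb'
      apply hb
      ext
      exact hb'
    · intro hne
      exact absurd (Finset.mem_univ _) hne
  · rw [if_neg h]
    apply Finset.sum_eq_zero
    intro m _
    by_cases hm : (m : ℕ) = i + k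
    · rw [if_neg (by omega : ¬ (j : ℕ) = m + l), mul_zero]
    · rw [if_neg hm, zero_mul]

theorem hom_sub {S : Type*} [Ring S] (n k : ℕ) (A B : ℕ → S) :
    hom n k A - hom n k B = hom n k (fun i => A i - B i) := by
  ext i j
  rw [Matrix.sub_apply]
  simp only [hom_apply]
  split_ifs <;> simp

theorem hom_add {S : Type*} [Ring S] (n k : ℕ) (A B : ℕ → S) :
    hom n k A + hom n k B = hom n k (fun i => A i + B i) := by
  ext i j
  rw [Matrix.add_apply]
  simp only [hom_apply]
  split_ifs <;> simp

theorem hom_zsmul {S : Type*} [Ring S] (n k : ℕ) (c : ℤ) (A : ℕ → S) :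
    c • hom n k A = hom n k (fun i => c • A i) := by
  ext i j
  rw [Matrix.smul_apply]
  simp only [hom_apply]
  split_ifs <;> simp

theorem hom_mem {S : Type*} [Ring S] (n k : ℕ) (A : ℕ → S) :
    hom n k A ∈ (matFilt n S (fun i => (i : ℕ))).F k := by
  intro i j h
  simp only at h
  rw [hom_apply, if_neg (by omega)]

/-- graded Lie bracket of sequences -/
theorem hom_bracket {S : Type*} [Ring S] (n k l : ℕ) (A B : ℕ → S) :
    hom n k A * hom n l B - hom n l B * hom n k A
      = hom n (k + l) (fun i => A i * B (i + k) - B i * A (i + l)) := by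
  rw [hom_mul, hom_mul, add_comm l k, hom_sub]

/-- two homogeneous matrices agree if the sequences agree where it matters -/
theorem hom_congr {S : Type*} [Ring S] (n k : ℕ) (A B : ℕ → S) (h : ∀ i, i + k < n → A i = B i) :
    hom n k A = hom n k B := by
  ext i j
  simp only [hom_apply]
  by_cases hj : (j : ℕ) = i + k
  · rw [if_pos hj, if_pos hj, h i (by omega)]
  · rw [if_neg hj, if_neg hj]

end Pool.Agent.H.MP_7a18c0_al
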