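import Pool.Agent.H.MP_7a18c0_al.Mat
import Pool.Agent.H.MP_7a18c0_al.Psi

set_option autoImplicit false

namespace Pool.Agent.H.MP_7a18c0_al

/-- the coefficient ring: integer `5 × 5` matrices -/
abbrev S5 : Type := Matrix (Fin 5) (Fin 5) ℤ

/-- multiplication by the linear form `p.1 x + p.2 y` (row `j` is the monomial with `y`-degree `j`) -/
def Mm (p : ℤ × ℤ) : S5 := !![p.1, p.2, 0, 0, 0; 0, p.1, p.2, 0, 0; 0, 0, p.1, p.2, 0; 0, 0, 0, p.1, p.2; 0, 0, 0, 0, p.1]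

/-- contraction with `p`, in divided powers -/
def Pm (p : ℤ × ℤ) : S5 := !![p.2, 0, 0, 0, 0; -p.1, p.2, 0, 0, 0; 0, -p.1, p.2, 0, 0; 0, 0, -p.1, p.2, 0; 0, 0, 0, -p.1, p.2]

/-- from monomials of degree four to divided powers -/
def Dm : S5 := !![24, 0, 0, 0, 0; 0, 6, 0, 0, 0; 0, 0, 4, 0, 0; 0, 0, 0, 6, 0; 0, 0, 0, 0, 24]

/-- the projection to the first coordinate -/
def Z0 : S5 := !![1, 0, 0, 0, 0; 0, 0, 0, 0, 0; 0, 0, 0, 0, 0; 0, 0, 0, 0, 0; 0, 0, 0, 0, 0]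

/-- the operators between consecutive layers -/
def T : ℕ → ℤ × ℤ → S5
  | 0, p => Z0 * Mm p
  | 1, p => Pm p * Z0
  | 2, p => Mm p
  | 3, p => Mm p
  | 4, p => Mm p
  | 5, p => Mm p
  | 6, p => Dm * Pm p
  | 7, p => Pm p
  | 8, p => Pm p
  | 9, p => Pm p * Z0
  | _, _ => 0

/-- a matrix with only the first row nonzero -/
def Row (v : Fin 5 → ℤ) : S5 := Matrix.of fun i j => if i = 0 then v j else 0

theorem Row_mul (v : Fin 5 → ℤ) (A : S5) : Row v * A = Row (Matrix.vecMul v A) := by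
  ext i j
  rw [Matrix.mul_apply]
  simp only [Row, Matrix.of_apply, Matrix.vecMul, dotProduct]
  split_ifs with h
  · rfl
  · simp

theorem Z0_eq : Z0 = Row ![1, 0, 0, 0, 0] := by
  ext i j
  fin_cases i <;> fin_cases j <;> rfl

theorem vec_M (a b c d e : ℤ) (p : ℤ × ℤ) :
    Matrix.vecMul ![a, b, c, d, e] (Mm p)
      = ![a * p.1, a * p.2 + b * p.1, b * p.2 + c * p.1, c * p.2 + d * p.1, d * p.2 + e * p.1] := by
  ext j
  fin_cases j <;> simp [Mm, Matrix.vecMul, dotProduct, Fin.sum_univ_succ]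

theorem vec_P (a b c d e : ℤ) (p : ℤ × ℤ) :
    Matrix.vecMul ![a, b, c, d, e] (Pm p)
      = ![a * p.2 - b * p.1, b * p.2 - c * p.1, c * p.2 - d * p.1, d * p.2 - e * p.1, e * p.2] := by
  ext j
  fin_cases j <;> simp [Pm, Matrix.vecMul, dotProduct, Fin.sum_univ_succ] <;> ring

theorem vec_D (a b c d e : ℤ) :
    Matrix.vecMul ![a, b, c, d, e] Dm = ![24 * a, 6 * b, 4 * c, 6 * d, 24 * e] := by
  ext j
  fin_cases j <;> simp [Dm, Matrix.vecMul, dotProduct, Fin.sum_univ_succ] <;> ring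

theorem vec_Z (a b c d e : ℤ) :
    Matrix.vecMul ![a, b, c, d, e] Z0 = ![a, 0, 0, 0, 0] := by
  ext j
  fin_cases j <;> simp [Z0, Matrix.vecMul, dotProduct, Fin.sum_univ_succ]

theorem Z0_mul (A : S5) : Z0 * A = Row (Matrix.vecMul ![1, 0, 0, 0, 0] A) := by
  rw [Z0_eq, Row_mul]

/-- the product of the ten operators -/
theorem T_prod (u : ℕ → ℤ × ℤ) :
    T 0 (u 0) * T 1 (u 1) * T 2 (u 2) * T 3 (u 3) * T 4 (u 4) * T 5 (u 5) * T 6 (u 6) * T 7 (u 7)
      * T 8 (u 8) * T 9 (u 9) = psiW (fun i j => om (u i) (u j)) • Z0 := by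
  simp only [T, ← mul_assoc]
  rw [Z0_mul]
  simp only [Row_mul]
  simp only [vec_M, vec_P, vec_D, vec_Z]
  ext i j
  rw [Matrix.smul_apply]
  fin_cases i
  · fin_cases j
    · simp only [Row, Z0, Matrix.of_apply, psiW, perm4, om]
      simp
      ring
    all_goals simp [Row, Z0]
  all_goals
    fin_cases j <;> simp [Row, Z0]

end Pool.Agent.H.MP_7a18c0_al
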